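import Pool.Agent.Helper22.LP.P3

/-!
# LP-P4: the average over `α` of the sums with real frequencies

`TR`: the sum in the average; `TR_conj`, `TR_neg`: at `α` near `0` and near `±π` its norm is that of a sum `LS` at the reduced angle; `TR_int`: the average.
-/

open MeasureTheory Real Set Filter Topology

set_option autoImplicit false

namespace Pool.Agent.Helper22.LP

open Pool.Agent.Helper22.AE
open Pool.Agent.Helper22.AC (cntc ga)
open Pool.Agent.Helper92.GC (dt sqa)
open Pool.Agent.Helper22.OV (o3_k0_cont o3_k0_nonneg o3_fd_cont o3_deriv_cd o3_rho_cont nk_ge_o3 card_sqa_o3 dt_neg_o3 dt_negk_o3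
  sqa_neg_o3)

/-- the sum in the average over `α` -/
noncomputable def TR (f : Fr) (i N : ℕ) (w γ : ℝ → ℝ) (r : ℝ) (c : ℝ × ℝ) : ℂ :=
  ∑ k ∈ sqa N, (((N : ℝ) / nr (fk f k) : ℝ) : ℂ) ^ i * ((w (tr (fk f k)) : ℝ) : ℂ) *
    (ee (dt k c) * ee (-(nr (fk f k) * (r * γ (tr (fk f k))))))

theorem sqa_ne {N : ℕ} (hN : 1 ≤ N) {k : ℤ × ℤ} (hk : k ∈ sqa N) : k ≠ 0 := by
  intro h
  have h1 := nk_ge_o3 hk
  have h2 : nk k = 0 := by
    rw [h]
    simp [nk, cz, Complex.ext_iff]
  have h3 : (1 : ℝ) ≤ N := by exact_mod_cast hN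
  linarith

theorem nr_neg (v : ℝ × ℝ) : nr (-v) = nr v := by
  rw [nr_eq, nr_eq]
  simp only [Prod.fst_neg, Prod.snd_neg]
  congr 1
  ring

theorem tr_neg {v : ℝ × ℝ} (hv : v ≠ 0) {A : Type} {F : ℝ → A} (hF : Function.Periodic F (2 * π)) :
    F (tr (-v)) = F (tr v + π) := by
  refine tr_angle (nr_pos hv) ?_ ?_ hF
  · rw [cos_add_pi, Prod.fst_neg]
    have := nr_cos v
    linarith
  · rw [sin_add_pi, Prod.snd_neg]
    have := nr_sin v
    linarith

theorem fk_neg (f : Fr) (k : ℤ × ℤ) : fk f (-k) = -fk f k := by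
  unfold fk fv
  ext
  · simp only [Prod.fst_neg, Prod.snd_neg, Int.cast_neg]
    ring
  · simp only [Prod.fst_neg, Prod.snd_neg, Int.cast_neg]
    ring

theorem TR_conj (f : Fr) (i N : ℕ) (w γ : ℝ → ℝ) (r : ℝ) (c : ℝ × ℝ) :
    ‖TR f i N w γ r c‖ = ‖LS f (hom γ) (fun v => ((w (tr v) : ℝ) : ℂ)) i N r (-c)‖ := by
  have h : TR f i N w γ r c = (starRingEnd ℂ) (LS f (hom γ) (fun v => ((w (tr v) : ℝ) : ℂ)) i N r (-c)) := by
    unfold TR LS hom
    rw [map_sum]
    refine Finset.sum_congr rfl fun k _ => ?_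
    rw [map_mul, map_mul, map_pow, Complex.conj_ofReal, Complex.conj_ofReal, ← ee_neg, ← ee_add, dt_neg_o3]
    congr 2
    ring
  rw [h, RCLike.norm_conj]

theorem TR_neg {f : Fr} (hf : fdet f ≠ 0) (i : ℕ) {N : ℕ} (hN : 1 ≤ N) {w γ : ℝ → ℝ} (hw : Function.Periodic w (2 * π))
    (hγ : Function.Periodic γ (2 * π)) (r : ℝ) (c : ℝ × ℝ) :
    ‖TR f i N (fun t => w (t + π)) (fun t => -γ (t + π)) r c‖ =
      ‖LS f (hom γ) (fun v => ((w (tr v) : ℝ) : ℂ)) i N r (-c)‖ := by
  congr 1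
  unfold TR LS hom
  refine Finset.sum_nbij' (fun k => -k) (fun k => -k) (fun k hk => sqa_neg_o3 hk) (fun k hk => sqa_neg_o3 hk)
    (fun k _ => neg_neg k) (fun k _ => neg_neg k) ?_
  intro k hk
  have hv := fk_ne hf (sqa_ne hN hk)
  have hw' : w (tr (-fk f k)) = w (tr (fk f k) + π) := tr_neg hv hw
  have hγ' : γ (tr (-fk f k)) = γ (tr (fk f k) + π) := tr_neg hv hγ
  beta_reduce
  rw [fk_neg, nr_neg, hw', hγ', dt_negk_o3, dt_neg_o3, neg_neg, ← ee_add]
  congr 2
  ring

/-- the lower bound of the length of the frequencies -/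
theorem fk_low {f : Fr} (hf : fdet f ≠ 0) : ∃ m : ℝ, 0 < m ∧ ∀ N : ℕ, ∀ k ∈ sqa N, m * N ≤ nr (fk f k) := by
  set D : ℝ := nr f.1 + nr f.2 with hD
  have h1 : 0 ≤ nr f.1 := norm_nonneg _
  have h2 : 0 ≤ nr f.2 := norm_nonneg _
  have hne : f.1 ≠ 0 := by
    intro h
    apply hf
    unfold fdet
    rw [h]
    simp
  have hD0 : 0 < D := by
    have := nr_pos hne
    linarith
  have hdet0 : 0 < |fdet f| := abs_pos.2 hf
  refine ⟨|fdet f| / (2 * D), by positivity, fun N k hk => ?_⟩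
  have hcs : ∀ v w : ℝ × ℝ, |v.1 * w.2 - v.2 * w.1| ≤ nr v * nr w := by
    intro v w
    rw [nr_eq, nr_eq, ← sqrt_mul (by positivity)]
    refine Real.abs_le_sqrt ?_
    nlinarith [sq_nonneg (v.1 * w.1 + v.2 * w.2)]
  have e1 : (k.1 : ℝ) * fdet f = (fk f k).1 * f.2.2 - (fk f k).2 * f.2.1 := by
    unfold fk fv fdet
    ring
  have e2 : (k.2 : ℝ) * fdet f = f.1.1 * (fk f k).2 - f.1.2 * (fk f k).1 := by
    unfold fk fv fdet
    ring
  have g1 : |(k.1 : ℝ)| * |fdet f| ≤ nr (fk f k) * D := by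
    rw [← abs_mul, e1]
    refine (hcs (fk f k) f.2).trans ?_
    exact mul_le_mul_of_nonneg_left (by linarith) (norm_nonneg _)
  have g2 : |(k.2 : ℝ)| * |fdet f| ≤ nr (fk f k) * D := by
    rw [← abs_mul, e2]
    refine (hcs f.1 (fk f k)).trans ?_
    rw [mul_comm]
    exact mul_le_mul_of_nonneg_left (by linarith) (norm_nonneg _)
  have h3 := nk_ge_o3 hk
  have h4 : nk k ≤ |(k.1 : ℝ)| + |(k.2 : ℝ)| := by
    unfold nk cz
    rw [Complex.norm_eq_sqrt_sq_add_sq]
    refine Real.sqrt_le_iff.2 ⟨by positivity, ?_⟩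
    have := mul_nonneg (abs_nonneg (k.1 : ℝ)) (abs_nonneg (k.2 : ℝ))
    have e5 := sq_abs (k.1 : ℝ)
    have e6 := sq_abs (k.2 : ℝ)
    simp only
    nlinarith
  have h5 : (N : ℝ) * |fdet f| ≤ 2 * (nr (fk f k) * D) := by
    calc (N : ℝ) * |fdet f| ≤ (|(k.1 : ℝ)| + |(k.2 : ℝ)|) * |fdet f| :=
          mul_le_mul_of_nonneg_right (h3.trans h4) hdet0.le
      _ = |(k.1 : ℝ)| * |fdet f| + |(k.2 : ℝ)| * |fdet f| := by ring
      _ ≤ _ := by linarith
  rw [div_mul_eq_mul_div, div_le_iff₀ (by positivity)]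
  linarith

theorem TR_triv {f : Fr} {m : ℝ} (hm : 0 < m) (hmk : ∀ N : ℕ, ∀ k ∈ sqa N, m * N ≤ nr (fk f k)) (i : ℕ) {N : ℕ} (hN : 1 ≤ N)
    {w : ℝ → ℝ} {M : ℝ} (hM : ∀ t, |w t| ≤ M) (γ : ℝ → ℝ) (r : ℝ) (c : ℝ × ℝ) :
    ‖TR f i N w γ r c‖ ≤ 16 * (N : ℝ) ^ 2 * (M * (1 / m) ^ i) := by
  have hN0 : (0 : ℝ) < N := by exact_mod_cast hN
  have hM0 : 0 ≤ M := (abs_nonneg _).trans (hM 0)
  unfold TR
  refine (norm_sum_le _ _).trans ?_
  calc ∑ k ∈ sqa N, ‖(((N : ℝ) / nr (fk f k) : ℝ) : ℂ) ^ i * ((w (tr (fk f k)) : ℝ) : ℂ) *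
        (ee (dt k c) * ee (-(nr (fk f k) * (r * γ (tr (fk f k))))))‖
      ≤ ∑ k ∈ sqa N, M * (1 / m) ^ i := by
        refine Finset.sum_le_sum (fun k hk => ?_)
        have h1 := hmk N k hk
        have h2 : 0 < nr (fk f k) := lt_of_lt_of_le (by positivity) h1
        rw [norm_mul, norm_mul, norm_mul, ee_norm, ee_norm, mul_one, mul_one, norm_pow, Complex.norm_real, Complex.norm_real,
          Real.norm_eq_abs, Real.norm_eq_abs, abs_of_nonneg (by positivity), mul_comm]
        have h3 : (N : ℝ) / nr (fk f k) ≤ 1 / m := by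
          rw [div_le_div_iff₀ h2 hm]
          linarith
        exact mul_le_mul (hM _) (pow_le_pow_left₀ (by positivity) h3 i) (by positivity) hM0
    _ = ((sqa N).card : ℝ) * (M * (1 / m) ^ i) := by rw [Finset.sum_const, nsmul_eq_mul]
    _ ≤ _ := mul_le_mul_of_nonneg_right (card_sqa_o3 N) (by positivity)

private theorem small_arc_p4 {α₀ α : ℝ} (h0 : 0 < α₀) (h1 : α₀ < π / 2) (ha : -π ≤ α) (hb : α ≤ π)
    (hc : 0 ≤ cos α) (hs : |sin α| ≤ sin α₀) : |α| ≤ α₀ := by
  have hpi := Real.pi_pos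
  have hr : |α| ≤ π / 2 := by
    by_contra h
    push Not at h
    have h2 : cos |α| < 0 := Real.cos_neg_of_pi_div_two_lt_of_lt h (by
      have : |α| ≤ π := abs_le.2 ⟨ha, hb⟩
      linarith)
    rw [Real.cos_abs] at h2
    linarith
  have hr2 := abs_le.1 hr
  by_contra h
  push Not at h
  have h3 : sin α₀ < sin |α| := Real.sin_lt_sin_of_lt_of_le_pi_div_two (by linarith) hr h
  have h4 : sin |α| = |sin α| := by
    rcases abs_cases α with ⟨e, he⟩ | ⟨e, he⟩
    · rw [e, abs_of_nonneg]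
      exact Real.sin_nonneg_of_nonneg_of_le_pi he hb
    · rw [e, Real.sin_neg, abs_of_nonpos]
      exact Real.sin_nonpos_of_nonpos_of_neg_pi_le he.le ha
  rw [h4] at h3
  linarith

/-- the pointwise bound: at every angle of the average -/
theorem TR_pt {H : ℝ → ℝ} (hH : IsSupp H) {f : Fr} (hf : fdet f ≠ 0) {α₀ : ℝ} (h0 : 0 < α₀) (h1 : α₀ < π / 2) (i : ℕ) {N : ℕ}
    (hN : 1 ≤ N) {w : ℝ → ℝ → ℝ} (hwp : ∀ α, Function.Periodic (w α) (2 * π)) (hwα : ∀ α t, w (α + π) t = w α (t + π))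
    (hwα' : ∀ α t, w (α - π) t = w α (t + π)) {r : ℝ} (c : ℝ × ℝ) {F : ℝ → ℝ} (hF0 : ∀ α, 0 ≤ F α)
    (hF : ∀ α ∈ Icc (-α₀) α₀, ‖LS f (hom (ga H α)) (fun v => ((w α (tr v) : ℝ) : ℂ)) i N r (-c)‖ ≤ F α)
    {α : ℝ} (ha : -π ≤ α) (hb : α ≤ π) (hs : |sin α| ≤ sin α₀) :
    ‖TR f i N (w α) (ga H α) r c‖ ≤ F α + F (α - π) + F (α + π) := by
  have hγp : ∀ β : ℝ, Function.Periodic (ga H β) (2 * π) := fun β => by
    have := Pool.Agent.Helper22.OV.ga_per_o3 hH.per β 0
    simpa using this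
  have hdp : Function.Periodic (deriv H) (2 * π) := by
    intro x
    have h2 : (fun x => H (x + 2 * π)) = H := funext hH.per
    have h3 : deriv (fun x => H (x + 2 * π)) x = deriv H (x + 2 * π) := deriv_comp_add_const H (2 * π) x
    rw [← h3, h2]
  rcases le_total 0 (cos α) with hc | hc
  · have h2 := abs_le.1 (small_arc_p4 h0 h1 ha hb hc hs)
    rw [TR_conj]
    have h3 := hF α ⟨h2.1, h2.2⟩
    have h4 := hF0 (α - π)
    have h5 := hF0 (α + π)
    linarith
  · rcases le_total 0 α with hα | hα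
    · obtain ⟨β, hβ⟩ : ∃ β, α = β + π := ⟨α - π, by ring⟩
      subst hβ
      have hsin : sin (β + π) = -sin β := Real.sin_add_pi β
      have hcos : cos (β + π) = -cos β := Real.cos_add_pi β
      rw [hsin, abs_neg] at hs
      rw [hcos] at hc
      have h2 := abs_le.1 (small_arc_p4 h0 h1 (by linarith) (by linarith [Real.pi_pos]) (by linarith) hs)
      have e1 : w (β + π) = fun t => w β (t + π) := funext fun t => hwα β t
      have e2 : ga H (β + π) = fun t => -ga H β (t + π) := by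
        funext t
        unfold ga
        rw [hsin, hcos]
        have e3 : t + (β + π) = t + π + β := by ring
        rw [e3]
        ring
      rw [e1, e2, TR_neg hf i hN (hwp β) (hγp β)]
      have h3 := hF β ⟨h2.1, h2.2⟩
      have h4 := hF0 (β + π)
      have h5 := hF0 (β + π + π)
      have e4 : β + π - π = β := by ring
      rw [e4]
      linarith
    · obtain ⟨β, hβ⟩ : ∃ β, α = β - π := ⟨α + π, by ring⟩
      subst hβ
      have hsin : sin (β - π) = -sin β := Real.sin_sub_pi β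
      have hcos : cos (β - π) = -cos β := Real.cos_sub_pi β
      rw [hsin, abs_neg] at hs
      rw [hcos] at hc
      have h2 := abs_le.1 (small_arc_p4 h0 h1 (by linarith [Real.pi_pos]) (by linarith) (by linarith) hs)
      have e1 : w (β - π) = fun t => w β (t + π) := funext fun t => hwα' β t
      have e2 : ga H (β - π) = fun t => -ga H β (t + π) := by
        funext t
        unfold ga
        rw [hsin, hcos]
        have e3 : t + π + β = t + (β - π) + 2 * π := by ring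
        rw [e3, hH.per, hdp]
        ring
      rw [e1, e2, TR_neg hf i hN (hwp β) (hγp β)]
      have h3 := hF β ⟨h2.1, h2.2⟩
      have h4 := hF0 (β - π)
      have h5 := hF0 (β - π - π)
      have e4 : β - π + π = β := by ring
      rw [e4]
      linarith

/-- the average over `α` -/
theorem TR_int {H : ℝ → ℝ} (hH : IsSupp H) {f : Fr} (hf : fdet f ≠ 0) {α₀ : ℝ} (h0 : 0 < α₀) (h1 : α₀ < π / 2) (i : ℕ) {N : ℕ}
    (hN : 1 ≤ N) {w : ℝ → ℝ → ℝ} (hwc : ∀ t, Continuous fun α => w α t)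
    (hwp : ∀ α, Function.Periodic (w α) (2 * π)) (hwα : ∀ α t, w (α + π) t = w α (t + π))
    (hwα' : ∀ α t, w (α - π) t = w α (t + π)) {E : ℝ} {r : ℝ} (c : ℝ × ℝ)
    (hE : ∀ α, ‖TR f i N (w α) (ga H α) r c‖ ≤ E) {β : ℝ} (hβ : 0 < β) {g : ℝ → ℝ} (hg : IntegrableOn g (Icc (-α₀) α₀))
    (hF : ∀ α ∈ Icc (-α₀) α₀, ‖LS f (hom (ga H α)) (fun v => ((w α (tr v) : ℝ) : ℂ)) i N r (-c)‖ ≤ g α) :
    ∫ α in (-π)..π, k0 β α * ‖TR f i N (w α) (ga H α) r c‖ ≤
      3 * (∫ α in Icc (-α₀) α₀, k0 β α * g α) + 2 * π * (β / sin α₀ ^ 2 * E) := by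
  have hpi := Real.pi_pos
  have hkc := o3_k0_cont hβ
  have hsin : 0 < sin α₀ := Real.sin_pos_of_pos_of_lt_pi h0 (by linarith)
  have hE0 : 0 ≤ E := (norm_nonneg _).trans (hE 0)
  have hg0 : ∀ α ∈ Icc (-α₀) α₀, 0 ≤ g α := fun α hα => (norm_nonneg _).trans (hF α hα)
  -- the truncated majorant
  set G : ℝ → ℝ := (Icc (-α₀) α₀).indicator g with hG
  have hG0 : ∀ α, 0 ≤ G α := fun α => indicator_nonneg hg0 α
  have hGi : Integrable (fun α => k0 β α * G α) := by
    have e : (fun α => k0 β α * G α) = (Icc (-α₀) α₀).indicator (fun α => k0 β α * g α) := by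
      funext α
      rw [hG]
      by_cases hα : α ∈ Icc (-α₀) α₀
      · rw [indicator_of_mem hα, indicator_of_mem hα]
      · rw [indicator_of_notMem hα, indicator_of_notMem hα, mul_zero]
    rw [e, integrable_indicator_iff measurableSet_Icc]
    exact hg.continuousOn_mul hkc.continuousOn isCompact_Icc
  have hGint : ∫ α, k0 β α * G α = ∫ α in Icc (-α₀) α₀, k0 β α * g α := by
    have e : (fun α => k0 β α * G α) = (Icc (-α₀) α₀).indicator (fun α => k0 β α * g α) := by
      funext α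
      rw [hG]
      by_cases hα : α ∈ Icc (-α₀) α₀
      · rw [indicator_of_mem hα, indicator_of_mem hα]
      · rw [indicator_of_notMem hα, indicator_of_notMem hα, mul_zero]
    rw [e, integral_indicator measurableSet_Icc]
  have hFG : ∀ α ∈ Icc (-α₀) α₀, ‖LS f (hom (ga H α)) (fun v => ((w α (tr v) : ℝ) : ℂ)) i N r (-c)‖ ≤ G α := by
    intro α hα
    rw [hG, indicator_of_mem hα]
    exact hF α hα
  have hk1 : ∀ α, k0 β (α - π) = k0 β α := by
    intro α
    unfold k0
    rw [sin_sub_pi, neg_sq]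
  have hk2 : ∀ α, k0 β (α + π) = k0 β α := by
    intro α
    unfold k0
    rw [sin_add_pi, neg_sq]
  have hpt : ∀ α ∈ Icc (-π) π, k0 β α * ‖TR f i N (w α) (ga H α) r c‖ ≤
      (k0 β α * G α + k0 β (α - π) * G (α - π) + k0 β (α + π) * G (α + π)) + β / sin α₀ ^ 2 * E := by
    intro α hα
    have hk := o3_k0_nonneg hβ α
    rw [hk1, hk2]
    have hs1 := mul_nonneg hk (hG0 α)
    have hs2 := mul_nonneg hk (hG0 (α - π))
    have hs3 := mul_nonneg hk (hG0 (α + π))
    by_cases hs : |sin α| ≤ sin α₀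
    · have h2 := TR_pt hH hf h0 h1 i hN hwp hwα hwα' c hG0 hFG hα.1 hα.2 hs
      have h3 := mul_le_mul_of_nonneg_left h2 hk
      have h4 : 0 ≤ β / sin α₀ ^ 2 * E := by positivity
      have h5 : k0 β α * (G α + G (α - π) + G (α + π)) = k0 β α * G α + k0 β α * G (α - π) + k0 β α * G (α + π) := by ring
      rw [h5] at h3
      linarith
    · push Not at hs
      have h2 := hE α
      have h3 : sin α₀ ^ 2 ≤ sin α ^ 2 + β ^ 2 := by
        have h4 : sin α₀ ^ 2 ≤ |sin α| ^ 2 := pow_le_pow_left₀ hsin.le hs.le 2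
        rw [sq_abs] at h4
        nlinarith [sq_nonneg β]
      have h4 : k0 β α ≤ β / sin α₀ ^ 2 := by
        unfold k0
        exact div_le_div_of_nonneg_left hβ.le (by positivity) h3
      have h5 := mul_le_mul h4 h2 (norm_nonneg _) (by positivity)
      linarith
  have hcont : Continuous fun α => ‖TR f i N (w α) (ga H α) r c‖ := by
    unfold TR
    refine Continuous.norm ?_
    refine continuous_finsetSum _ (fun k _ => ?_)
    refine Continuous.mul (continuous_const.mul (Complex.continuous_ofReal.comp (hwc _))) ?_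
    refine continuous_const.mul (ee_cont.comp ?_)
    have h2 := ga_cont hH.smooth (tr (fk f k))
    fun_prop
  have i1 : Integrable (fun α => k0 β (α - π) * G (α - π)) := hGi.comp_sub_right π
  have i2 : Integrable (fun α => k0 β (α + π) * G (α + π)) := hGi.comp_add_right π
  have hsum : Integrable (fun α => k0 β α * G α + k0 β (α - π) * G (α - π) + k0 β (α + π) * G (α + π)) := (hGi.add i1).add i2
  have hle : -π ≤ π := by linarith
  calc ∫ α in (-π)..π, k0 β α * ‖TR f i N (w α) (ga H α) r c‖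
      ≤ ∫ α in (-π)..π, ((k0 β α * G α + k0 β (α - π) * G (α - π) + k0 β (α + π) * G (α + π)) + β / sin α₀ ^ 2 * E) := by
        refine intervalIntegral.integral_mono_on hle ?_ ?_ hpt
        · exact (hkc.mul hcont).intervalIntegrable _ _
        · exact (hsum.intervalIntegrable).add (continuous_const.intervalIntegrable _ _)
    _ = (∫ α in (-π)..π, (k0 β α * G α + k0 β (α - π) * G (α - π) + k0 β (α + π) * G (α + π))) +
        2 * π * (β / sin α₀ ^ 2 * E) := by
        rw [intervalIntegral.integral_add hsum.intervalIntegrable (continuous_const.intervalIntegrable _ _),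
          intervalIntegral.integral_const, smul_eq_mul]
        ring
    _ ≤ (∫ α, (k0 β α * G α + k0 β (α - π) * G (α - π) + k0 β (α + π) * G (α + π))) + 2 * π * (β / sin α₀ ^ 2 * E) := by
        refine add_le_add ?_ le_rfl
        rw [intervalIntegral.integral_of_le hle]
        refine setIntegral_le_integral hsum (Filter.Eventually.of_forall fun α => ?_)
        have g1 := mul_nonneg (o3_k0_nonneg hβ α) (hG0 α)
        have g2 := mul_nonneg (o3_k0_nonneg hβ (α - π)) (hG0 (α - π))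
        have g3 := mul_nonneg (o3_k0_nonneg hβ (α + π)) (hG0 (α + π))
        simp only [Pi.zero_apply]
        linarith
    _ = 3 * (∫ α in Icc (-α₀) α₀, k0 β α * g α) + 2 * π * (β / sin α₀ ^ 2 * E) := by
        have e1 : (∫ α, (k0 β α * G α + k0 β (α - π) * G (α - π) + k0 β (α + π) * G (α + π))) =
            (∫ α, (k0 β α * G α + k0 β (α - π) * G (α - π))) + ∫ α, k0 β (α + π) * G (α + π) :=
          integral_add (f := fun α => k0 β α * G α + k0 β (α - π) * G (α - π)) (g := fun α => k0 β (α + π) * G (α + π))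
            (hGi.add i1) i2
        have e2 : (∫ α, (k0 β α * G α + k0 β (α - π) * G (α - π))) = (∫ α, k0 β α * G α) + ∫ α, k0 β (α - π) * G (α - π) :=
          integral_add hGi i1
        have e3 : (∫ α, k0 β (α - π) * G (α - π)) = ∫ α, k0 β α * G α := integral_sub_right_eq_self (fun α => k0 β α * G α) π
        have e4 : (∫ α, k0 β (α + π) * G (α + π)) = ∫ α, k0 β α * G α := integral_add_right_eq_self (fun α => k0 β α * G α) π
        rw [e1, e2, e3, e4, hGint]
        ring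

end Pool.Agent.Helper22.LP
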