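import Pool.Agent.Helper22.LP.Defs

/-!
# LP-P1: the oval in the coordinates of the lattice has a `C²` support function with positive radius of curvature

The angle of `a(t) = cos t e₁ + sin t e₂` has the lift `θ(t) = θ₀ + ∫ D / |a|²`, `D = fdet f`, so `Hf H f t = |a(t)| H(θ(t)) = a(t) · x(θ(t))`, `x = bx H`, and
`Hf + Hf'' = ρ(θ(t)) D² / |a(t)|³`.
-/

open MeasureTheory Real Set Filter Topology

set_option autoImplicit false

namespace Pool.Agent.Helper22.LP

open Pool.Agent.Helper22.AE

/-- first component of `a(t)` -/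
noncomputable def a1 (f : Fr) (t : ℝ) : ℝ := cos t * f.1.1 + sin t * f.2.1

/-- second component of `a(t)` -/
noncomputable def a2 (f : Fr) (t : ℝ) : ℝ := cos t * f.1.2 + sin t * f.2.2

/-- first component of `a'(t)` -/
noncomputable def b1 (f : Fr) (t : ℝ) : ℝ := -sin t * f.1.1 + cos t * f.2.1

/-- second component of `a'(t)` -/
noncomputable def b2 (f : Fr) (t : ℝ) : ℝ := -sin t * f.1.2 + cos t * f.2.2

/-- `|a(t)|²` -/
noncomputable def qa (f : Fr) (t : ℝ) : ℝ := a1 f t ^ 2 + a2 f t ^ 2

/-- the lift of the angle -/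
noncomputable def th (f : Fr) (t : ℝ) : ℝ := tr (fv f (cos 0) (sin 0)) + ∫ s in (0 : ℝ)..t, fdet f / qa f s

theorem a1_deriv (f : Fr) (t : ℝ) : HasDerivAt (a1 f) (b1 f t) t := by
  unfold a1 b1
  exact ((hasDerivAt_cos t).mul_const _).add ((hasDerivAt_sin t).mul_const _)

theorem a2_deriv (f : Fr) (t : ℝ) : HasDerivAt (a2 f) (b2 f t) t := by
  unfold a2 b2
  exact ((hasDerivAt_cos t).mul_const _).add ((hasDerivAt_sin t).mul_const _)

theorem b1_deriv (f : Fr) (t : ℝ) : HasDerivAt (b1 f) (-a1 f t) t := by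
  unfold a1 b1
  have h := ((hasDerivAt_sin t).neg.mul_const f.1.1).add ((hasDerivAt_cos t).mul_const f.2.1)
  refine h.congr_deriv ?_
  ring

theorem b2_deriv (f : Fr) (t : ℝ) : HasDerivAt (b2 f) (-a2 f t) t := by
  unfold a2 b2
  have h := ((hasDerivAt_sin t).neg.mul_const f.1.2).add ((hasDerivAt_cos t).mul_const f.2.2)
  refine h.congr_deriv ?_
  ring

theorem ab_det (f : Fr) (t : ℝ) : a1 f t * b2 f t - a2 f t * b1 f t = fdet f := by
  unfold a1 a2 b1 b2 fdet
  have h := sin_sq_add_cos_sq t
  linear_combination (f.1.1 * f.2.2 - f.1.2 * f.2.1) * h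

theorem qa_pos {f : Fr} (hf : fdet f ≠ 0) (t : ℝ) : 0 < qa f t := by
  have h := ab_det f t
  unfold qa
  by_contra hn
  push Not at hn
  have h1 : a1 f t = 0 := by
    have h3 : a1 f t ^ 2 = 0 := by nlinarith [sq_nonneg (a1 f t), sq_nonneg (a2 f t)]
    exact pow_eq_zero_iff (two_ne_zero) |>.mp h3
  have h2 : a2 f t = 0 := by
    have h3 : a2 f t ^ 2 = 0 := by nlinarith [sq_nonneg (a1 f t), sq_nonneg (a2 f t)]
    exact pow_eq_zero_iff (two_ne_zero) |>.mp h3
  apply hf
  rw [← h, h1, h2]
  ring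

theorem qa_contDiff (f : Fr) (n : ℕ) : ContDiff ℝ n (qa f) := by
  unfold qa a1 a2
  have h1 : ContDiff ℝ n cos := contDiff_cos
  have h2 : ContDiff ℝ n sin := contDiff_sin
  fun_prop

theorem qa_deriv (f : Fr) (t : ℝ) : HasDerivAt (qa f) (2 * (a1 f t * b1 f t + a2 f t * b2 f t)) t := by
  have h := ((a1_deriv f t).pow 2).add ((a2_deriv f t).pow 2)
  unfold qa
  refine h.congr_deriv ?_
  push_cast
  ring

theorem th_deriv {f : Fr} (hf : fdet f ≠ 0) (t : ℝ) : HasDerivAt (th f) (fdet f / qa f t) t := by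
  have hc : Continuous (fun s => fdet f / qa f s) :=
    continuous_const.div (qa_contDiff f 0).continuous (fun s => (qa_pos hf s).ne')
  have h := intervalIntegral.integral_hasDerivAt_right (hc.intervalIntegrable 0 t)
    (hc.stronglyMeasurableAtFilter _ _) hc.continuousAt
  unfold th
  exact h.const_add _

theorem th_contDiff {f : Fr} (hf : fdet f ≠ 0) (n : ℕ) : ContDiff ℝ (n + 1 : ℕ) (th f) := by
  have h : ContDiff ℝ ((n : WithTop ℕ∞) + 1) (th f) := by
    rw [contDiff_succ_iff_deriv]
    refine ⟨fun t => (th_deriv hf t).differentiableAt, by simp, ?_⟩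
    have e : deriv (th f) = fun t => fdet f / qa f t := funext fun t => (th_deriv hf t).deriv
    rw [e]
    exact contDiff_const.div (qa_contDiff f n) (fun s => (qa_pos hf s).ne')
  exact_mod_cast h

private theorem uv_const {f : Fr} (hf : fdet f ≠ 0) (t : ℝ) :
    (a1 f t * cos (th f t) + a2 f t * sin (th f t)) / sqrt (qa f t) =
      (a1 f 0 * cos (th f 0) + a2 f 0 * sin (th f 0)) / sqrt (qa f 0) ∧
    (-a1 f t * sin (th f t) + a2 f t * cos (th f t)) / sqrt (qa f t) =
      (-a1 f 0 * sin (th f 0) + a2 f 0 * cos (th f 0)) / sqrt (qa f 0) := by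
  have hs : ∀ s, HasDerivAt (fun s => sqrt (qa f s)) ((2 * (a1 f s * b1 f s + a2 f s * b2 f s)) / (2 * sqrt (qa f s))) s :=
    fun s => (qa_deriv f s).sqrt (qa_pos hf s).ne'
  have hsp : ∀ s, 0 < sqrt (qa f s) := fun s => sqrt_pos.2 (qa_pos hf s)
  have hss : ∀ s, sqrt (qa f s) ^ 2 = qa f s := fun s => sq_sqrt (qa_pos hf s).le
  have hcos : ∀ s, HasDerivAt (fun s => cos (th f s)) (-sin (th f s) * (fdet f / qa f s)) s := fun s => (th_deriv hf s).cos
  have hsin : ∀ s, HasDerivAt (fun s => sin (th f s)) (cos (th f s) * (fdet f / qa f s)) s := fun s => (th_deriv hf s).sin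
  constructor
  · refine is_const_of_deriv_eq_zero (f := fun s => (a1 f s * cos (th f s) + a2 f s * sin (th f s)) / sqrt (qa f s)) ?_ ?_ t 0
    · intro s
      exact ((((a1_deriv f s).mul (hcos s)).add ((a2_deriv f s).mul (hsin s))).div (hs s) (hsp s).ne').differentiableAt
    · intro s
      have hd := ((((a1_deriv f s).mul (hcos s)).add ((a2_deriv f s).mul (hsin s))).div (hs s) (hsp s).ne')
      have hd' := hd.deriv
      rw [show (fun s => (a1 f s * cos (th f s) + a2 f s * sin (th f s)) / sqrt (qa f s)) =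
        ((a1 f * fun s => cos (th f s)) + (a2 f * fun s => sin (th f s))) / fun s => sqrt (qa f s) from rfl, hd']
      have h1 := hsp s
      have h2 := hss s
      have h3 := ab_det f s
      have h4 : a1 f s ^ 2 + a2 f s ^ 2 = qa f s := rfl
      have h5 := (qa_pos hf s).ne'
      rw [div_eq_zero_iff]
      left
      simp only [Pi.add_apply, Pi.mul_apply]
      have e1 : (a1 f s * cos (th f s) + a2 f s * sin (th f s)) *
          (2 * (a1 f s * b1 f s + a2 f s * b2 f s) / (2 * sqrt (qa f s))) =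
          (a1 f s * cos (th f s) + a2 f s * sin (th f s)) * (a1 f s * b1 f s + a2 f s * b2 f s) / sqrt (qa f s) := by
        field_simp
      rw [e1]
      have e2 : (b1 f s * cos (th f s) + a1 f s * (-sin (th f s) * (fdet f / qa f s)) +
          (b2 f s * sin (th f s) + a2 f s * (cos (th f s) * (fdet f / qa f s)))) * qa f s =
          (a1 f s * cos (th f s) + a2 f s * sin (th f s)) * (a1 f s * b1 f s + a2 f s * b2 f s) := by
        have e3 : fdet f / qa f s * qa f s = fdet f := div_mul_cancel₀ _ h5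
        have e4 : (b1 f s * cos (th f s) + a1 f s * (-sin (th f s) * (fdet f / qa f s)) +
          (b2 f s * sin (th f s) + a2 f s * (cos (th f s) * (fdet f / qa f s)))) * qa f s =
          (b1 f s * cos (th f s) + b2 f s * sin (th f s)) * qa f s +
          (-a1 f s * sin (th f s) + a2 f s * cos (th f s)) * (fdet f / qa f s * qa f s) := by ring
        rw [e4, e3, ← h3, ← h4]
        ring
      have e5 : (b1 f s * cos (th f s) + a1 f s * (-sin (th f s) * (fdet f / qa f s)) +
          (b2 f s * sin (th f s) + a2 f s * (cos (th f s) * (fdet f / qa f s)))) * sqrt (qa f s) =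
          (a1 f s * cos (th f s) + a2 f s * sin (th f s)) * (a1 f s * b1 f s + a2 f s * b2 f s) / sqrt (qa f s) := by
        rw [eq_div_iff h1.ne', ← e2]
        calc _ = (b1 f s * cos (th f s) + a1 f s * (-sin (th f s) * (fdet f / qa f s)) +
          (b2 f s * sin (th f s) + a2 f s * (cos (th f s) * (fdet f / qa f s)))) * (sqrt (qa f s) ^ 2) := by ring
          _ = _ := by rw [h2]
      linarith
  · refine is_const_of_deriv_eq_zero (f := fun s => (-a1 f s * sin (th f s) + a2 f s * cos (th f s)) / sqrt (qa f s)) ?_ ?_ t 0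
    · intro s
      exact ((((a1_deriv f s).neg.mul (hsin s)).add ((a2_deriv f s).mul (hcos s))).div (hs s) (hsp s).ne').differentiableAt
    · intro s
      have hd := ((((a1_deriv f s).neg.mul (hsin s)).add ((a2_deriv f s).mul (hcos s))).div (hs s) (hsp s).ne')
      have hd' := hd.deriv
      rw [show (fun s => (-a1 f s * sin (th f s) + a2 f s * cos (th f s)) / sqrt (qa f s)) =
        (((-(a1 f)) * fun s => sin (th f s)) + (a2 f * fun s => cos (th f s))) / fun s => sqrt (qa f s) from rfl, hd']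
      have h1 := hsp s
      have h2 := hss s
      have h3 := ab_det f s
      have h4 : a1 f s ^ 2 + a2 f s ^ 2 = qa f s := rfl
      have h5 := (qa_pos hf s).ne'
      rw [div_eq_zero_iff]
      left
      simp only [Pi.add_apply, Pi.mul_apply, Pi.neg_apply]
      have e1 : (-a1 f s * sin (th f s) + a2 f s * cos (th f s)) *
          (2 * (a1 f s * b1 f s + a2 f s * b2 f s) / (2 * sqrt (qa f s))) =
          (-a1 f s * sin (th f s) + a2 f s * cos (th f s)) * (a1 f s * b1 f s + a2 f s * b2 f s) / sqrt (qa f s) := by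
        field_simp
      rw [e1]
      have e2 : (-b1 f s * sin (th f s) + -a1 f s * (cos (th f s) * (fdet f / qa f s)) +
          (b2 f s * cos (th f s) + a2 f s * (-sin (th f s) * (fdet f / qa f s)))) * qa f s =
          (-a1 f s * sin (th f s) + a2 f s * cos (th f s)) * (a1 f s * b1 f s + a2 f s * b2 f s) := by
        have e3 : fdet f / qa f s * qa f s = fdet f := div_mul_cancel₀ _ h5
        have e4 : (-b1 f s * sin (th f s) + -a1 f s * (cos (th f s) * (fdet f / qa f s)) +
          (b2 f s * cos (th f s) + a2 f s * (-sin (th f s) * (fdet f / qa f s)))) * qa f s =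
          (-b1 f s * sin (th f s) + b2 f s * cos (th f s)) * qa f s -
          (a1 f s * cos (th f s) + a2 f s * sin (th f s)) * (fdet f / qa f s * qa f s) := by ring
        rw [e4, e3, ← h3, ← h4]
        ring
      have e5 : (-b1 f s * sin (th f s) + -a1 f s * (cos (th f s) * (fdet f / qa f s)) +
          (b2 f s * cos (th f s) + a2 f s * (-sin (th f s) * (fdet f / qa f s)))) * sqrt (qa f s) =
          (-a1 f s * sin (th f s) + a2 f s * cos (th f s)) * (a1 f s * b1 f s + a2 f s * b2 f s) / sqrt (qa f s) := by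
        rw [eq_div_iff h1.ne', ← e2]
        calc _ = (-b1 f s * sin (th f s) + -a1 f s * (cos (th f s) * (fdet f / qa f s)) +
          (b2 f s * cos (th f s) + a2 f s * (-sin (th f s) * (fdet f / qa f s)))) * (sqrt (qa f s) ^ 2) := by ring
          _ = _ := by rw [h2]
      linarith

/-- the polar coordinates of `a(t)` -/
theorem a_polar {f : Fr} (hf : fdet f ≠ 0) (t : ℝ) :
    a1 f t = sqrt (qa f t) * cos (th f t) ∧ a2 f t = sqrt (qa f t) * sin (th f t) := by
  obtain ⟨h1, h2⟩ := uv_const hf t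
  have hs0 : 0 < sqrt (qa f 0) := sqrt_pos.2 (qa_pos hf 0)
  have hst : 0 < sqrt (qa f t) := sqrt_pos.2 (qa_pos hf t)
  have hth0 : th f 0 = tr (fv f (cos 0) (sin 0)) := by
    unfold th
    rw [intervalIntegral.integral_same, add_zero]
  have hnr : nr (fv f (cos 0) (sin 0)) = sqrt (qa f 0) := by
    rw [nr_eq]
    rfl
  have h10 : a1 f 0 = sqrt (qa f 0) * cos (th f 0) := by
    rw [hth0, ← hnr]
    exact nr_cos (fv f (cos 0) (sin 0))
  have h20 : a2 f 0 = sqrt (qa f 0) * sin (th f 0) := by
    rw [hth0, ← hnr]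
    exact nr_sin (fv f (cos 0) (sin 0))
  have hcs := sin_sq_add_cos_sq (th f 0)
  have e1 : (a1 f 0 * cos (th f 0) + a2 f 0 * sin (th f 0)) / sqrt (qa f 0) = 1 := by
    rw [div_eq_one_iff_eq hs0.ne']
    calc a1 f 0 * cos (th f 0) + a2 f 0 * sin (th f 0) =
          (sqrt (qa f 0) * cos (th f 0)) * cos (th f 0) + (sqrt (qa f 0) * sin (th f 0)) * sin (th f 0) := by rw [← h10, ← h20]
      _ = sqrt (qa f 0) * (sin (th f 0) ^ 2 + cos (th f 0) ^ 2) := by ring
      _ = sqrt (qa f 0) := by rw [hcs, mul_one]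
  have e2 : (-a1 f 0 * sin (th f 0) + a2 f 0 * cos (th f 0)) / sqrt (qa f 0) = 0 := by
    rw [div_eq_zero_iff]
    left
    calc -a1 f 0 * sin (th f 0) + a2 f 0 * cos (th f 0) =
          -(sqrt (qa f 0) * cos (th f 0)) * sin (th f 0) + (sqrt (qa f 0) * sin (th f 0)) * cos (th f 0) := by rw [← h10, ← h20]
      _ = 0 := by ring
  rw [e1, div_eq_one_iff_eq hst.ne'] at h1
  rw [e2, div_eq_zero_iff] at h2
  have h3 : -a1 f t * sin (th f t) + a2 f t * cos (th f t) = 0 := h2.resolve_right hst.ne'
  have hct := sin_sq_add_cos_sq (th f t)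
  constructor
  · calc a1 f t = a1 f t * (sin (th f t) ^ 2 + cos (th f t) ^ 2) := by rw [hct, mul_one]
      _ = (a1 f t * cos (th f t) + a2 f t * sin (th f t)) * cos (th f t) -
          (-a1 f t * sin (th f t) + a2 f t * cos (th f t)) * sin (th f t) := by ring
      _ = _ := by rw [h1, h3]; ring
  · calc a2 f t = a2 f t * (sin (th f t) ^ 2 + cos (th f t) ^ 2) := by rw [hct, mul_one]
      _ = (a1 f t * cos (th f t) + a2 f t * sin (th f t)) * sin (th f t) +
          (-a1 f t * sin (th f t) + a2 f t * cos (th f t)) * cos (th f t) := by ring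
      _ = _ := by rw [h1, h3]; ring

theorem Hf_eq {H : ℝ → ℝ} (hp : Function.Periodic H (2 * π)) {f : Fr} (hf : fdet f ≠ 0) (t : ℝ) :
    Hf H f t = sqrt (qa f t) * H (th f t) := by
  obtain ⟨h1, h2⟩ := a_polar hf t
  have hst : 0 < sqrt (qa f t) := sqrt_pos.2 (qa_pos hf t)
  unfold Hf hom
  have hnr : nr (fv f (cos t) (sin t)) = sqrt (qa f t) := by
    rw [nr_eq]
    rfl
  rw [hnr, tr_angle hst h1 h2 hp]

theorem Hf_contDiff {H : ℝ → ℝ} (hp : Function.Periodic H (2 * π)) {n : ℕ} (hn : 1 ≤ n) (hH : ContDiff ℝ n H) {f : Fr}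
    (hf : fdet f ≠ 0) : ContDiff ℝ n (Hf H f) := by
  have e : Hf H f = fun t => sqrt (qa f t) * H (th f t) := funext fun t => Hf_eq hp hf t
  rw [e]
  refine ContDiff.mul ?_ ?_
  · exact (qa_contDiff f n).sqrt (fun t => (qa_pos hf t).ne')
  · obtain ⟨m, rfl⟩ : ∃ m, n = m + 1 := ⟨n - 1, by omega⟩
    exact hH.comp (th_contDiff hf m)

/-- the oval in the coordinates of the lattice -/
theorem Hf_isSupp {H : ℝ → ℝ} (hH : IsSupp H) {f : Fr} (hf : fdet f ≠ 0) : IsSupp (Hf H f) := by
  have hcd : ContDiff ℝ 2 (Hf H f) := by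
    have := Hf_contDiff (n := 2) hH.per (by norm_num) (by exact_mod_cast hH.smooth) hf
    exact_mod_cast this
  have hG1 : ContDiff ℝ 1 (deriv H) := by
    have h : ContDiff ℝ (1 + 1) H := by
      have e : (1 + 1 : WithTop ℕ∞) = 2 := by norm_num
      rw [e]
      exact hH.smooth
    exact (contDiff_succ_iff_deriv.1 h).2.2
  have hd : Differentiable ℝ H := hH.smooth.differentiable (by norm_num)
  have hd1 : Differentiable ℝ (deriv H) := hG1.differentiable (by norm_num)
  refine ⟨hcd, ?_, ?_, ?_⟩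
  · intro t
    unfold Hf
    rw [cos_add_two_pi, sin_add_two_pi]
  · intro t
    rw [Hf_eq hH.per hf]
    exact mul_pos (sqrt_pos.2 (qa_pos hf t)) (hH.pos _)
  · intro t
    -- the boundary point
    set x1 : ℝ → ℝ := fun s => H (th f s) * cos (th f s) - deriv H (th f s) * sin (th f s) with hx1
    set x2 : ℝ → ℝ := fun s => H (th f s) * sin (th f s) + deriv H (th f s) * cos (th f s) with hx2
    have hcos : ∀ s, HasDerivAt (fun s => cos (th f s)) (-sin (th f s) * (fdet f / qa f s)) s := fun s => (th_deriv hf s).cos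
    have hsin : ∀ s, HasDerivAt (fun s => sin (th f s)) (cos (th f s) * (fdet f / qa f s)) s := fun s => (th_deriv hf s).sin
    have hHt : ∀ s, HasDerivAt (fun s => H (th f s)) (deriv H (th f s) * (fdet f / qa f s)) s := fun s =>
      HasDerivAt.comp s (hd (th f s)).hasDerivAt (th_deriv hf s)
    have hHt1 : ∀ s, HasDerivAt (fun s => deriv H (th f s)) (deriv (deriv H) (th f s) * (fdet f / qa f s)) s := fun s =>
      HasDerivAt.comp s (hd1 (th f s)).hasDerivAt (th_deriv hf s)
    have hdx1 : ∀ s, HasDerivAt x1 (-(rho H (th f s) * sin (th f s) * (fdet f / qa f s))) s := by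
      intro s
      have h := ((hHt s).mul (hcos s)).sub ((hHt1 s).mul (hsin s))
      refine h.congr_deriv ?_
      unfold rho
      ring
    have hdx2 : ∀ s, HasDerivAt x2 (rho H (th f s) * cos (th f s) * (fdet f / qa f s)) s := by
      intro s
      have h := ((hHt s).mul (hsin s)).add ((hHt1 s).mul (hcos s))
      refine h.congr_deriv ?_
      unfold rho
      ring
    have hT : Hf H f = fun s => a1 f s * x1 s + a2 f s * x2 s := by
      funext s
      rw [Hf_eq hH.per hf]
      obtain ⟨h1, h2⟩ := a_polar hf s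
      rw [h1, h2, hx1, hx2]
      have hcs := sin_sq_add_cos_sq (th f s)
      simp only
      linear_combination (-(sqrt (qa f s)) * H (th f s)) * hcs
    have hT1 : deriv (Hf H f) = fun s => b1 f s * x1 s + b2 f s * x2 s := by
      rw [hT]
      funext s
      have h := ((a1_deriv f s).mul (hdx1 s)).add ((a2_deriv f s).mul (hdx2 s))
      have h' := h.deriv
      have e : (fun s => a1 f s * x1 s + a2 f s * x2 s) = (a1 f * x1 + a2 f * x2) := rfl
      rw [e, h']
      obtain ⟨h1, h2⟩ := a_polar hf s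
      have h3 : -a1 f s * sin (th f s) + a2 f s * cos (th f s) = 0 := by
        rw [h1, h2]
        ring
      linear_combination (rho H (th f s) * (fdet f / qa f s)) * h3
    have hT2 : deriv (deriv (Hf H f)) t = -(Hf H f t) + rho H (th f t) * (fdet f / qa f t) *
        (-b1 f t * sin (th f t) + b2 f t * cos (th f t)) := by
      rw [hT1]
      have h := ((b1_deriv f t).mul (hdx1 t)).add ((b2_deriv f t).mul (hdx2 t))
      have h' := h.deriv
      have e : (fun s => b1 f s * x1 s + b2 f s * x2 s) = (b1 f * x1 + b2 f * x2) := rfl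
      rw [e, h', hT]
      ring
    have h4 : sqrt (qa f t) * (-b1 f t * sin (th f t) + b2 f t * cos (th f t)) = fdet f := by
      have h3 := ab_det f t
      obtain ⟨h1, h2⟩ := a_polar hf t
      rw [← h3]
      linear_combination (-(b2 f t)) * h1 + b1 f t * h2
    have hs := sqrt_pos.2 (qa_pos hf t)
    have h5 : -b1 f t * sin (th f t) + b2 f t * cos (th f t) = fdet f / sqrt (qa f t) := by
      rw [eq_div_iff hs.ne', mul_comm]
      exact h4
    have h6 : Hf H f t + deriv (deriv (Hf H f)) t = rho H (th f t) * (fdet f ^ 2 / (qa f t * sqrt (qa f t))) := by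
      rw [hT2, h5]
      have := (qa_pos hf t).ne'
      field_simp
      ring
    rw [h6]
    have h7 : 0 < rho H (th f t) := hH.rho_pos _
    have h8 : 0 < fdet f ^ 2 := by positivity
    have h9 := qa_pos hf t
    positivity

end Pool.Agent.Helper22.LP
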