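import Pool.Agent.Helper22.OV.D3

/-!
# LP (MP_fb29e9_nt, almost every lattice): Poisson summation for a lattice and an oval. Definitions

A frame `f = (e₁, e₂)` of the plane; the frequencies are `fk f k = k₁ e₁ + k₂ e₂`. For a lattice with basis `a, b` the frame is the dual basis. `hom γ v = |v| γ (arg v)`.
In the coordinates of the lattice the oval with support function `H` has the support function `Hf H f t = hom H (cos t e₁ + sin t e₂)`.
-/

open MeasureTheory Real Set Filter Topology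

set_option autoImplicit false

namespace Pool.Agent.Helper22.LP

open Pool.Agent.Helper22.AE
open Pool.Agent.Helper22.AC (cntc ga)
open Pool.Agent.Helper92.GC (dt sqa)

/-- a frame: two vectors of the plane -/
abbrev Fr := (ℝ × ℝ) × (ℝ × ℝ)

/-- the vector `x e₁ + y e₂` -/
noncomputable def fv (f : Fr) (x y : ℝ) : ℝ × ℝ := (x * f.1.1 + y * f.2.1, x * f.1.2 + y * f.2.2)

/-- the frequency `k₁ e₁ + k₂ e₂` -/
noncomputable def fk (f : Fr) (k : ℤ × ℤ) : ℝ × ℝ := fv f k.1 k.2

/-- the determinant of the frame -/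
noncomputable def fdet (f : Fr) : ℝ := f.1.1 * f.2.2 - f.1.2 * f.2.1

/-- the complex number of a vector -/
def cp (v : ℝ × ℝ) : ℂ := ⟨v.1, v.2⟩

/-- the length -/
noncomputable def nr (v : ℝ × ℝ) : ℝ := ‖cp v‖

/-- the argument -/
noncomputable def tr (v : ℝ × ℝ) : ℝ := Complex.arg (cp v)

/-- the homogeneous function of degree one with the values `γ` on the circle -/
noncomputable def hom (γ : ℝ → ℝ) (v : ℝ × ℝ) : ℝ := nr v * γ (tr v)

/-- the support function in the coordinates of the lattice -/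
noncomputable def Hf (H : ℝ → ℝ) (f : Fr) (t : ℝ) : ℝ := hom H (fv f (cos t) (sin t))

/-- the sum over `sqa N` with phase `r h(fk f k) + k · c` and weights `(N / |fk f k|)^i w(fk f k)` -/
noncomputable def LS (f : Fr) (h : ℝ × ℝ → ℝ) (w : ℝ × ℝ → ℂ) (i N : ℕ) (r : ℝ) (c : ℝ × ℝ) : ℂ :=
  ∑ k ∈ sqa N, (((N : ℝ) / nr (fk f k) : ℝ) : ℂ) ^ i * w (fk f k) * ee (r * h (fk f k) + dt k c)

/-- the Fourier transform of the indicator function of `dom G` at a real frequency -/
noncomputable def ftr (G : ℝ → ℝ) (ξ : ℝ × ℝ) : ℂ := ∫ p in dom G, ee (-(ξ.1 * p.1 + ξ.2 * p.2))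

theorem nr_eq (v : ℝ × ℝ) : nr v = sqrt (v.1 ^ 2 + v.2 ^ 2) := by
  unfold nr cp
  rw [Complex.norm_eq_sqrt_sq_add_sq]

theorem nr_pos {v : ℝ × ℝ} (hv : v ≠ 0) : 0 < nr v := by
  unfold nr
  rw [norm_pos_iff]
  intro h
  apply hv
  have h1 := congrArg Complex.re h
  have h2 := congrArg Complex.im h
  unfold cp at h1 h2
  ext
  · exact h1
  · exact h2

theorem nr_cos (v : ℝ × ℝ) : v.1 = nr v * cos (tr v) := (Complex.norm_mul_cos_arg (cp v)).symm

theorem nr_sin (v : ℝ × ℝ) : v.2 = nr v * sin (tr v) := (Complex.norm_mul_sin_arg (cp v)).symm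

theorem fv_ne {f : Fr} (hf : fdet f ≠ 0) {x y : ℝ} (h : x ≠ 0 ∨ y ≠ 0) : fv f x y ≠ 0 := by
  intro h0
  have h1 := congrArg Prod.fst h0
  have h2 := congrArg Prod.snd h0
  unfold fv at h1 h2
  simp only [Prod.fst_zero, Prod.snd_zero] at h1 h2
  unfold fdet at hf
  have hx : x * (f.1.1 * f.2.2 - f.1.2 * f.2.1) = 0 := by linear_combination f.2.2 * h1 - f.2.1 * h2
  have hy : y * (f.1.1 * f.2.2 - f.1.2 * f.2.1) = 0 := by linear_combination f.1.1 * h2 - f.1.2 * h1
  rcases h with h | h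
  · exact h ((mul_eq_zero.1 hx).resolve_right hf)
  · exact h ((mul_eq_zero.1 hy).resolve_right hf)

theorem fk_ne {f : Fr} (hf : fdet f ≠ 0) {k : ℤ × ℤ} (hk : k ≠ 0) : fk f k ≠ 0 := by
  refine fv_ne hf ?_
  by_contra h
  push Not at h
  apply hk
  ext
  · exact_mod_cast h.1
  · exact_mod_cast h.2

/-- a vector with positive length in direction `θ` -/
theorem tr_angle {v : ℝ × ℝ} {r θ : ℝ} (hr : 0 < r) (h1 : v.1 = r * cos θ) (h2 : v.2 = r * sin θ) {A : Type} {F : ℝ → A}
    (hF : Function.Periodic F (2 * π)) : F (tr v) = F θ := by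
  have hc : cp v = (r : ℂ) * (Complex.cos θ + Complex.sin θ * Complex.I) := by
    unfold cp
    rw [h1, h2]
    apply Complex.ext
    · simp [← Complex.ofReal_cos, ← Complex.ofReal_sin]
    · simp [← Complex.ofReal_cos, ← Complex.ofReal_sin]
  have h3 : ((tr v : ℝ) : Real.Angle) = ((θ : ℝ) : Real.Angle) := by
    unfold tr
    rw [hc]
    have h4 := Complex.arg_mul_cos_add_sin_mul_I_coe_angle hr (θ : Real.Angle)
    simpa using h4
  rw [Real.Angle.angle_eq_iff_two_pi_dvd_sub] at h3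
  obtain ⟨n, hn⟩ := h3
  have h4 : tr v = θ + n • (2 * π) := by
    rw [zsmul_eq_mul]
    linarith
  rw [h4]
  exact (hF.zsmul n) θ

end Pool.Agent.Helper22.LP
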