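import Pool.Agent.Helper22.LP.P2

/-!
# LP: from the lattice coordinates to the lattice `ℤa + ℤb`

`cnt_lat`: the points of `ℤa + ℤb` in `c + R D` are counted by `cntc (Hf H f)` for the dual frame `f = du (a, b)`. `ae_du`: null sets of frames and null sets of pairs `(a, b)`.
`ae_sw`: it is enough to treat the frames with positive determinant.
-/

open MeasureTheory Real Set Filter Topology

set_option autoImplicit false

namespace Pool.Agent.Helper22.LP

open Pool.Agent.Helper22.AE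
open Pool.Agent.Helper22.AC (cntc ga)

/-- the dual frame -/
noncomputable def du (p : Fr) : Fr := ((p.2.2 / fdet p, -p.2.1 / fdet p), (-p.1.2 / fdet p, p.1.1 / fdet p))

/-- the frame in the other order -/
def sw (p : Fr) : Fr := (p.2, p.1)

/-- the number of pairs of integers `(m, n)` with `m a + n b ∈ c + R D` -/
noncomputable def cntL (H : ℝ → ℝ) (p : Fr) (c : ℝ × ℝ) (R : ℝ) : ℝ :=
  (Nat.card {k : ℤ × ℤ // ∀ t : ℝ, ((k.1 : ℝ) * p.1.1 + k.2 * p.2.1 - c.1) * cos t + ((k.1 : ℝ) * p.1.2 + k.2 * p.2.2 - c.2) * sin t ≤ R * H t} : ℝ)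

theorem fdet_du {p : Fr} (hp : fdet p ≠ 0) : fdet (du p) = 1 / fdet p := by
  have h : p.1.1 * p.2.2 - p.1.2 * p.2.1 = fdet p := rfl
  have h2 : fdet (du p) = (p.1.1 * p.2.2 - p.1.2 * p.2.1) / fdet p ^ 2 := by
    unfold du
    simp only [fdet] at hp ⊢
    field_simp
  rw [h2, h]
  field_simp

theorem du_du {p : Fr} (hp : fdet p ≠ 0) : du (du p) = p := by
  have h := fdet_du hp
  unfold du at h ⊢
  rw [h]
  obtain ⟨⟨a, b⟩, ⟨c, d⟩⟩ := p
  simp only [Prod.mk.injEq]
  refine ⟨⟨?_, ?_⟩, ⟨?_, ?_⟩⟩ <;> field_simp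

theorem cnt_lat {H : ℝ → ℝ} (hp : Function.Periodic H (2 * π)) {p : Fr} (hd : fdet p ≠ 0) (c : ℝ × ℝ) (R : ℝ) :
    cntL H p c R = cntc (Hf H (du p)) ((du p).1.1 * c.1 + (du p).1.2 * c.2, (du p).2.1 * c.1 + (du p).2.2 * c.2) R := by
  have hdu : fdet (du p) ≠ 0 := by
    rw [fdet_du hd]
    exact one_div_ne_zero hd
  have hdom := dom_lin hp hdu R
  unfold cntL cntc
  congr 1
  refine Nat.card_congr (Equiv.subtypeEquivRight fun k => ?_)
  set c' : ℝ × ℝ := ((du p).1.1 * c.1 + (du p).1.2 * c.2, (du p).2.1 * c.1 + (du p).2.2 * c.2) with hc'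
  set q : ℝ × ℝ := ((k.1 : ℝ) * p.1.1 + k.2 * p.2.1 - c.1, (k.1 : ℝ) * p.1.2 + k.2 * p.2.2 - c.2) with hq
  have h1 : (∀ t : ℝ, ((k.1 : ℝ) * p.1.1 + k.2 * p.2.1 - c.1) * cos t + ((k.1 : ℝ) * p.1.2 + k.2 * p.2.2 - c.2) * sin t ≤ R * H t) ↔
      q ∈ dom (fun t => R * H t) := Iff.rfl
  have h2 : (∀ t : ℝ, ((k.1 : ℝ) - c'.1) * cos t + ((k.2 : ℝ) - c'.2) * sin t ≤ R * Hf H (du p) t) ↔
      (((k.1 : ℝ) - c'.1, (k.2 : ℝ) - c'.2) : ℝ × ℝ) ∈ dom (fun t => R * Hf H (du p) t) := Iff.rfl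
  have hfd : p.1.1 * p.2.2 - p.1.2 * p.2.1 = fdet p := rfl
  have e1 : (du p).1.1 * q.1 + (du p).1.2 * q.2 = (k.1 : ℝ) - c'.1 := by
    simp only [hq, hc', du]
    field_simp
    linear_combination (k.1 : ℝ) * hfd
  have e2 : (du p).2.1 * q.1 + (du p).2.2 * q.2 = (k.2 : ℝ) - c'.2 := by
    simp only [hq, hc', du]
    field_simp
    linear_combination (k.2 : ℝ) * hfd
  rw [h1, h2, hdom]
  constructor
  · intro hm
    refine ⟨q, hm, ?_⟩
    simp only
    rw [e1, e2]
  · rintro ⟨q', hq', he⟩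
    have he1 := congrArg Prod.fst he
    have he2 := congrArg Prod.snd he
    simp only at he1 he2
    rw [← e1] at he1
    rw [← e2] at he2
    have hdet' : (du p).1.1 * (du p).2.2 - (du p).1.2 * (du p).2.1 ≠ 0 := hdu
    have g1 : q'.1 = q.1 := by
      have : ((du p).1.1 * (du p).2.2 - (du p).1.2 * (du p).2.1) * (q'.1 - q.1) = 0 := by
        linear_combination (du p).2.2 * he1 - (du p).1.2 * he2
      have := (mul_eq_zero.1 this).resolve_left hdet'
      linarith
    have g2 : q'.2 = q.2 := by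
      have : ((du p).1.1 * (du p).2.2 - (du p).1.2 * (du p).2.1) * (q'.2 - q.2) = 0 := by
        linear_combination (du p).1.1 * he2 - (du p).2.1 * he1
      have := (mul_eq_zero.1 this).resolve_left hdet'
      linarith
    have : q' = q := Prod.ext g1 g2
    rw [← this]
    exact hq'

theorem fdet_null : ∀ᵐ p : Fr, fdet p ≠ 0 := by
  rw [ae_iff]
  simp only [ne_eq, not_not]
  have hmeas : MeasurableSet {p : Fr | fdet p = 0} := by
    unfold fdet
    exact measurableSet_eq_fun (by fun_prop) measurable_const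
  rw [show (volume : Measure Fr) = (volume : Measure (ℝ × ℝ)).prod volume from rfl, Measure.measure_prod_null hmeas]
  have h0 : ∀ᵐ a : ℝ × ℝ, a ≠ 0 := by
    rw [ae_iff]
    simp
  filter_upwards [h0] with a ha
  set ℓ : (ℝ × ℝ) →ₗ[ℝ] ℝ :=
    { toFun := fun b => a.1 * b.2 - a.2 * b.1
      map_add' := by intro x y; simp; ring
      map_smul' := by intro m x; simp; ring } with hℓ
  have hS : Prod.mk a ⁻¹' {p : Fr | fdet p = 0} = (LinearMap.ker ℓ : Set (ℝ × ℝ)) := by
    ext b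
    simp only [mem_preimage, mem_setOf_eq, SetLike.mem_coe, LinearMap.mem_ker]
    rfl
  rw [hS]
  refine Measure.addHaar_submodule _ _ ?_
  intro htop
  apply ha
  have h1 : ℓ (0, 1) = 0 := by
    have : ((0, 1) : ℝ × ℝ) ∈ LinearMap.ker ℓ := by rw [htop]; trivial
    exact this
  have h2 : ℓ (1, 0) = 0 := by
    have : ((1, 0) : ℝ × ℝ) ∈ LinearMap.ker ℓ := by rw [htop]; trivial
    exact this
  simp only [hℓ, LinearMap.coe_mk, AddHom.coe_mk] at h1 h2
  ext
  · simpa using h1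
  · simpa using h2

theorem ae_du {P : Fr → Prop} (h : ∀ᵐ f : Fr, P f) : ∀ᵐ p : Fr, P (du p) := by
  rw [ae_iff] at h
  have : (volume : Measure Fr).IsAddHaarMeasure := Measure.prod.instIsAddHaarMeasure volume volume
  have hd : DifferentiableOn ℝ du ({f | ¬ P f} ∩ {f | fdet f ≠ 0}) := by
    intro f hf
    refine DifferentiableAt.differentiableWithinAt ?_
    have hf' : fdet f ≠ 0 := hf.2
    unfold fdet at hf'
    unfold du fdet
    fun_prop (disch := exact hf')
  have h1 : volume (du '' ({f | ¬ P f} ∩ {f | fdet f ≠ 0})) = 0 := by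
    refine addHaar_image_eq_zero_of_differentiableOn_of_addHaar_eq_zero volume hd ?_
    exact measure_mono_null inter_subset_left h
  have h2 : ∀ᵐ p : Fr, p ∉ du '' ({f | ¬ P f} ∩ {f | fdet f ≠ 0}) := measure_eq_zero_iff_ae_notMem.1 h1
  filter_upwards [h2, fdet_null] with p hp hp0
  by_contra hn
  apply hp
  refine ⟨du p, ⟨hn, ?_⟩, du_du hp0⟩
  show fdet (du p) ≠ 0
  rw [fdet_du hp0]
  exact one_div_ne_zero hp0

end Pool.Agent.Helper22.LP
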