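import Pool.Agent.Helper22.LP.P1

/-!
# LP-P2: linear changes of variables: the Fourier transform in the coordinates of the lattice, and at a real frequency
-/

open MeasureTheory Real Set Filter Topology

set_option autoImplicit false

namespace Pool.Agent.Helper22.LP

open Pool.Agent.Helper22.AE
open Pool.Agent.Helper22.AC (ga)

theorem int_lin {a b c d : ℝ} (h : a * d - b * c ≠ 0) {S : Set (ℝ × ℝ)} (hS : MeasurableSet S) (F : ℝ × ℝ → ℂ) :
    ∫ p in (fun q : ℝ × ℝ => (a * q.1 + b * q.2, c * q.1 + d * q.2)) '' S, F p =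
      ((|a * d - b * c| : ℝ) : ℂ) * ∫ q in S, F (a * q.1 + b * q.2, c * q.1 + d * q.2) := by
  set L : (ℝ × ℝ) →ₗ[ℝ] ℝ × ℝ := Matrix.toLin (Module.Basis.finTwoProd ℝ) (Module.Basis.finTwoProd ℝ) !![a, b; c, d] with hL
  have hLa : ∀ q : ℝ × ℝ, L q = (a * q.1 + b * q.2, c * q.1 + d * q.2) := by
    intro q
    rw [hL]
    exact Matrix.toLin_finTwoProd_apply a b c d q
  have hdet : LinearMap.det L = a * d - b * c := by
    rw [hL, LinearMap.det_toLin, Matrix.det_fin_two_of]
  have hfun : (fun q : ℝ × ℝ => (a * q.1 + b * q.2, c * q.1 + d * q.2)) = fun q => L.toContinuousLinearMap q := by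
    funext q
    exact (hLa q).symm
  rw [hfun]
  have hder : ∀ x ∈ S, HasFDerivWithinAt (fun q => L.toContinuousLinearMap q) L.toContinuousLinearMap S x := fun x _ =>
    L.toContinuousLinearMap.hasFDerivWithinAt
  have hinj : InjOn (fun q => L.toContinuousLinearMap q) S := by
    intro x _ y _ hxy
    have h1 : L x = L y := hxy
    rw [hLa, hLa] at h1
    have h2 := congrArg Prod.fst h1
    have h3 := congrArg Prod.snd h1
    simp only at h2 h3
    have e1 : (x.1 - y.1) * (a * d - b * c) = 0 := by linear_combination d * h2 - b * h3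
    have e2 : (x.2 - y.2) * (a * d - b * c) = 0 := by linear_combination a * h3 - c * h2
    ext
    · exact sub_eq_zero.1 ((mul_eq_zero.1 e1).resolve_right h)
    · exact sub_eq_zero.1 ((mul_eq_zero.1 e2).resolve_right h)
  rw [integral_image_eq_integral_abs_det_fderiv_smul volume hS hder hinj F]
  have hd2 : L.toContinuousLinearMap.det = a * d - b * c := by
    rw [← hdet]
    rfl
  rw [hd2, ← integral_const_mul]
  congr 1
  funext q
  have h1 : L.toContinuousLinearMap q = (a * q.1 + b * q.2, c * q.1 + d * q.2) := hLa q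
  rw [h1, Complex.real_smul]

theorem dom_meas (G : ℝ → ℝ) : MeasurableSet (dom G) := by
  have h : dom G = ⋂ θ : ℝ, {p : ℝ × ℝ | p.1 * cos θ + p.2 * sin θ ≤ G θ} := by
    ext p
    simp [dom]
  rw [h]
  refine IsClosed.measurableSet (isClosed_iInter fun θ => ?_)
  exact isClosed_le (by fun_prop) continuous_const

theorem hom_smul {H : ℝ → ℝ} (hp : Function.Periodic H (2 * π)) {s : ℝ} (hs : 0 < s) (v : ℝ × ℝ) (hv : v ≠ 0) :
    hom H (s * v.1, s * v.2) = s * hom H v := by
  have h1 : nr (s * v.1, s * v.2) = s * nr v := by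
    rw [nr_eq, nr_eq]
    simp only
    rw [show (s * v.1) ^ 2 + (s * v.2) ^ 2 = s ^ 2 * (v.1 ^ 2 + v.2 ^ 2) by ring, sqrt_mul (by positivity), sqrt_sq hs.le]
  have h2 : H (tr (s * v.1, s * v.2)) = H (tr v) := by
    refine tr_angle (r := s * nr v) (mul_pos hs (nr_pos hv)) ?_ ?_ hp
    · simp only
      rw [nr_cos v]
      have := nr_cos v
      rw [← this]
      rw [mul_assoc, ← this]
    · simp only
      have := nr_sin v
      rw [mul_assoc, ← this]
  unfold hom
  rw [h1, h2]
  ring

/-- the dilated oval in the coordinates of the lattice is a linear image -/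
theorem dom_lin {H : ℝ → ℝ} (hp : Function.Periodic H (2 * π)) {f : Fr} (hf : fdet f ≠ 0) (r : ℝ) :
    dom (fun t => r * Hf H f t) =
      (fun q : ℝ × ℝ => (f.1.1 * q.1 + f.1.2 * q.2, f.2.1 * q.1 + f.2.2 * q.2)) '' dom (fun t => r * H t) := by
  have hdet : f.1.1 * f.2.2 - f.1.2 * f.2.1 ≠ 0 := hf
  -- the criterion
  have hiff : ∀ q : ℝ × ℝ, (f.1.1 * q.1 + f.1.2 * q.2, f.2.1 * q.1 + f.2.2 * q.2) ∈ dom (fun t => r * Hf H f t) ↔
      q ∈ dom (fun t => r * H t) := by
    intro q
    have hdot : ∀ t, (f.1.1 * q.1 + f.1.2 * q.2) * cos t + (f.2.1 * q.1 + f.2.2 * q.2) * sin t =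
        q.1 * (fv f (cos t) (sin t)).1 + q.2 * (fv f (cos t) (sin t)).2 := by
      intro t
      unfold fv
      simp only
      ring
    constructor
    · intro h θ
      -- `(cos θ, sin θ) = s a(t)`
      obtain ⟨D, hD⟩ : ∃ D : ℝ, D = f.1.1 * f.2.2 - f.1.2 * f.2.1 := ⟨_, rfl⟩
      have hD0 : D ≠ 0 := by
        rw [hD]
        exact hdet
      obtain ⟨x, hx⟩ : ∃ x : ℝ, x = (cos θ * f.2.2 - sin θ * f.2.1) / D := ⟨_, rfl⟩
      obtain ⟨y, hy⟩ : ∃ y : ℝ, y = (sin θ * f.1.1 - cos θ * f.1.2) / D := ⟨_, rfl⟩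
      have hxy1 : x * f.1.1 + y * f.2.1 = cos θ := by
        have e : x * f.1.1 + y * f.2.1 = ((cos θ * f.2.2 - sin θ * f.2.1) * f.1.1 + (sin θ * f.1.1 - cos θ * f.1.2) * f.2.1) / D := by
          rw [hx, hy]
          ring
        rw [e, div_eq_iff hD0, hD]
        ring
      have hxy2 : x * f.1.2 + y * f.2.2 = sin θ := by
        have e : x * f.1.2 + y * f.2.2 = ((cos θ * f.2.2 - sin θ * f.2.1) * f.1.2 + (sin θ * f.1.1 - cos θ * f.1.2) * f.2.2) / D := by
          rw [hx, hy]
          ring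
        rw [e, div_eq_iff hD0, hD]
        ring
      have hne : (x, y) ≠ (0 : ℝ × ℝ) := by
        intro h0
        have h1 := congrArg Prod.fst h0
        have h2 := congrArg Prod.snd h0
        simp only [Prod.fst_zero, Prod.snd_zero] at h1 h2
        rw [h1, h2] at hxy1 hxy2
        have := sin_sq_add_cos_sq θ
        rw [← hxy1, ← hxy2] at this
        simp at this
      have hs := nr_pos hne
      set s := nr (x, y) with hsd
      set t := tr (x, y) with htd
      have hxs : x = s * cos t := nr_cos (x, y)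
      have hys : y = s * sin t := nr_sin (x, y)
      have ha1 : cos θ = s * (fv f (cos t) (sin t)).1 := by
        rw [← hxy1, hxs, hys]
        unfold fv
        simp only
        ring
      have ha2 : sin θ = s * (fv f (cos t) (sin t)).2 := by
        rw [← hxy2, hxs, hys]
        unfold fv
        simp only
        ring
      have h3 := h t
      simp only at h3
      rw [hdot] at h3
      have hane : fv f (cos t) (sin t) ≠ 0 := by
        refine fv_ne hf ?_
        by_contra hn
        push Not at hn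
        have := sin_sq_add_cos_sq t
        rw [hn.1, hn.2] at this
        norm_num at this
      have h4 : s * Hf H f t = H θ := by
        unfold Hf
        rw [← hom_smul hp hs _ hane, ← ha1, ← ha2]
        unfold hom
        have e1 : nr (cos θ, sin θ) = 1 := by
          rw [nr_eq]
          simp only
          rw [add_comm, sin_sq_add_cos_sq, sqrt_one]
        rw [e1, one_mul]
        exact tr_angle one_pos (by simp) (by simp) hp
      have h5 := mul_le_mul_of_nonneg_left h3 hs.le
      calc q.1 * cos θ + q.2 * sin θ = s * (q.1 * (fv f (cos t) (sin t)).1 + q.2 * (fv f (cos t) (sin t)).2) := by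
            rw [ha1, ha2]
            ring
        _ ≤ s * (r * Hf H f t) := h5
        _ = r * (s * Hf H f t) := by ring
        _ = r * H θ := by rw [h4]
    · intro h t
      simp only
      rw [hdot]
      set v := fv f (cos t) (sin t) with hv
      have h1 := h (tr v)
      simp only at h1
      have h2 : 0 ≤ nr v := norm_nonneg _
      have h3 := mul_le_mul_of_nonneg_left h1 h2
      have h4 : q.1 * v.1 + q.2 * v.2 = nr v * (q.1 * cos (tr v) + q.2 * sin (tr v)) := by
        have e1 := nr_cos v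
        have e2 := nr_sin v
        calc q.1 * v.1 + q.2 * v.2 = q.1 * (nr v * cos (tr v)) + q.2 * (nr v * sin (tr v)) := by rw [← e1, ← e2]
          _ = _ := by ring
      rw [h4]
      refine h3.trans (le_of_eq ?_)
      unfold Hf hom
      rw [← hv]
      ring
  ext p
  constructor
  · intro hpm
    obtain ⟨D, hD⟩ : ∃ D : ℝ, D = f.1.1 * f.2.2 - f.1.2 * f.2.1 := ⟨_, rfl⟩
    have hD0 : D ≠ 0 := by
      rw [hD]
      exact hdet
    have e1 : f.1.1 * ((f.2.2 * p.1 - f.1.2 * p.2) / D) + f.1.2 * ((f.1.1 * p.2 - f.2.1 * p.1) / D) = p.1 := by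
      have e : f.1.1 * ((f.2.2 * p.1 - f.1.2 * p.2) / D) + f.1.2 * ((f.1.1 * p.2 - f.2.1 * p.1) / D) =
          (f.1.1 * (f.2.2 * p.1 - f.1.2 * p.2) + f.1.2 * (f.1.1 * p.2 - f.2.1 * p.1)) / D := by ring
      rw [e, div_eq_iff hD0, hD]
      ring
    have e2 : f.2.1 * ((f.2.2 * p.1 - f.1.2 * p.2) / D) + f.2.2 * ((f.1.1 * p.2 - f.2.1 * p.1) / D) = p.2 := by
      have e : f.2.1 * ((f.2.2 * p.1 - f.1.2 * p.2) / D) + f.2.2 * ((f.1.1 * p.2 - f.2.1 * p.1) / D) =
          (f.2.1 * (f.2.2 * p.1 - f.1.2 * p.2) + f.2.2 * (f.1.1 * p.2 - f.2.1 * p.1)) / D := by ring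
      rw [e, div_eq_iff hD0, hD]
      ring
    refine ⟨((f.2.2 * p.1 - f.1.2 * p.2) / D, (f.1.1 * p.2 - f.2.1 * p.1) / D), ?_, ?_⟩
    · rw [← hiff]
      simp only
      rw [e1, e2]
      exact hpm
    · simp only
      rw [e1, e2]
  · rintro ⟨q, hq, rfl⟩
    exact (hiff q).2 hq

theorem ft_lin {H : ℝ → ℝ} (hp : Function.Periodic H (2 * π)) {f : Fr} (hf : fdet f ≠ 0) (r : ℝ) (k : ℤ × ℤ) :
    ft (fun t => r * Hf H f t) k = ((|fdet f| : ℝ) : ℂ) * ftr (fun t => r * H t) (fk f k) := by
  unfold ft ftr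
  rw [dom_lin hp hf, int_lin (a := f.1.1) (b := f.1.2) (c := f.2.1) (d := f.2.2) hf (dom_meas _)]
  unfold fdet
  congr 1
  congr 1
  funext q
  congr 1
  unfold fk fv
  simp only
  ring

theorem area_lin {H : ℝ → ℝ} (hp : Function.Periodic H (2 * π)) {f : Fr} (hf : fdet f ≠ 0) :
    area (Hf H f) = |fdet f| * area H := by
  have h0 := ft_lin hp hf 1 0
  have h1 : ∀ G : ℝ → ℝ, ft G 0 = ((area G : ℝ) : ℂ) := by
    intro G
    unfold ft area
    have h : ∀ p : ℝ × ℝ, ee (-((((0 : ℤ × ℤ).1 : ℤ) : ℝ) * p.1 + (((0 : ℤ × ℤ).2 : ℤ) : ℝ) * p.2)) = 1 := by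
      intro p
      simp [ee_zero]
    simp only [h]
    rw [MeasureTheory.setIntegral_const]
    simp [Measure.real]
  have h2 : ftr (fun t => 1 * H t) (fk f 0) = ((area H : ℝ) : ℂ) := by
    rw [← h1 H]
    unfold ftr ft fk fv
    simp
  have h3 : (fun t => 1 * Hf H f t) = Hf H f := by
    funext t
    rw [one_mul]
  rw [h2, h3, h1, ← Complex.ofReal_mul] at h0
  exact_mod_cast h0

/-- rotated and dilated support function -/
theorem rot_isSupp {G : ℝ → ℝ} (hG : IsSupp G) {r : ℝ} (hr : 0 < r) (t : ℝ) : IsSupp (fun θ => r * G (θ + t)) := by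
  have hd1 : deriv (fun θ => r * G (θ + t)) = fun θ => r * deriv G (θ + t) := by
    funext θ
    rw [deriv_const_mul_field, deriv_comp_add_const]
  have hd2 : deriv (deriv (fun θ => r * G (θ + t))) = fun θ => r * deriv (deriv G) (θ + t) := by
    rw [hd1]
    funext θ
    rw [deriv_const_mul_field, deriv_comp_add_const]
  refine ⟨?_, ?_, ?_, ?_⟩
  · exact contDiff_const.mul (hG.smooth.comp (contDiff_id.add contDiff_const))
  · intro θ
    simp only
    rw [show θ + 2 * π + t = θ + t + 2 * π by ring, hG.per]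
  · intro θ
    exact mul_pos hr (hG.pos _)
  · intro θ
    rw [hd2]
    simp only
    have := mul_pos hr (hG.rho_pos (θ + t))
    linarith

theorem ftr_rot (G : ℝ → ℝ) {ξ : ℝ × ℝ} (hξ : ξ ≠ 0) :
    ftr G ξ = (((1 / nr ξ ^ 2 : ℝ)) : ℂ) * ft (fun θ => nr ξ * G (θ + tr ξ)) (1, 0) := by
  have hr := nr_pos hξ
  set r := nr ξ with hrd
  set t := tr ξ with htd
  have hcs := sin_sq_add_cos_sq t
  have hdet : cos t / r * (cos t / r) - (-sin t / r) * (sin t / r) = 1 / r ^ 2 := by
    field_simp
    linarith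
  have hdet0 : cos t / r * (cos t / r) - (-sin t / r) * (sin t / r) ≠ 0 := by
    rw [hdet]
    positivity
  have hdom : dom G = (fun q : ℝ × ℝ => (cos t / r * q.1 + -sin t / r * q.2, sin t / r * q.1 + cos t / r * q.2)) ''
      dom (fun θ => r * G (θ + t)) := by
    ext p
    constructor
    · intro hp
      refine ⟨(r * (cos t * p.1 + sin t * p.2), r * (-sin t * p.1 + cos t * p.2)), ?_, ?_⟩
      · intro θ
        simp only
        have h := hp (θ + t)
        have e1 : r * (cos t * p.1 + sin t * p.2) * cos θ + r * (-sin t * p.1 + cos t * p.2) * sin θ =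
            r * (p.1 * cos (θ + t) + p.2 * sin (θ + t)) := by
          rw [cos_add, sin_add]
          ring
        rw [e1]
        exact mul_le_mul_of_nonneg_left h hr.le
      · ext
        · simp only
          field_simp
          linear_combination p.1 * hcs
        · simp only
          field_simp
          linear_combination p.2 * hcs
    · rintro ⟨q, hq, rfl⟩
      intro θ
      simp only
      have h := hq (θ - t)
      simp only [sub_add_cancel] at h
      have e1 : (cos t / r * q.1 + -sin t / r * q.2) * cos θ + (sin t / r * q.1 + cos t / r * q.2) * sin θ =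
          (q.1 * cos (θ - t) + q.2 * sin (θ - t)) / r := by
        rw [cos_sub, sin_sub]
        field_simp
        ring
      rw [e1, div_le_iff₀ hr]
      linarith
  unfold ftr ft
  rw [hdom, int_lin hdet0 (dom_meas _), hdet, abs_of_pos (by positivity)]
  congr 1
  congr 1
  funext q
  congr 1
  have e1 : ξ.1 = r * cos t := nr_cos ξ
  have e2 : ξ.2 = r * sin t := nr_sin ξ
  rw [e1, e2]
  simp only [Int.cast_one, Int.cast_zero]
  field_simp
  linear_combination (-q.1) * hcs

/-- the polar formula at a real frequency, after one integration by parts -/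
theorem ftr_ibp {G : ℝ → ℝ} (hG : IsSupp G) {ξ : ℝ × ℝ} (hξ : ξ ≠ 0) {β : ℝ} (hβ : 0 < β) :
    ftr G ξ = -(1 / (2 * π * Complex.I * (nr ξ : ℂ))) *
      ((∫ α in (-π)..π, ((β * k0 β α * cos α * rho G (tr ξ + α) : ℝ) : ℂ) * ee (-(nr ξ * ga G α (tr ξ)))) -
      1 / (2 * π * Complex.I * (nr ξ : ℂ)) * ∫ α in (-π)..π, ((fd β α : ℝ) : ℂ) * ee (-(nr ξ * ga G α (tr ξ)))) := by
  have hr := nr_pos hξ
  have hk : ((1, 0) : ℤ × ℤ) ≠ 0 := by decide
  have hG' := rot_isSupp hG hr (tr ξ)
  have hnk : nk (1, 0) = 1 := by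
    unfold nk cz
    rw [Complex.norm_eq_sqrt_sq_add_sq]
    simp
  have htk : tk (1, 0) = 0 := by
    unfold tk cz
    have h : (⟨(((1, 0) : ℤ × ℤ).1 : ℝ), (((1, 0) : ℤ × ℤ).2 : ℝ)⟩ : ℂ) = 1 := by
      apply Complex.ext
      · simp
      · simp
    rw [h, Complex.arg_one]
  have hd1 : deriv (fun θ => nr ξ * G (θ + tr ξ)) = fun θ => nr ξ * deriv G (θ + tr ξ) := by
    funext θ
    rw [deriv_const_mul_field, deriv_comp_add_const]
  have hd2 : deriv (deriv (fun θ => nr ξ * G (θ + tr ξ))) = fun θ => nr ξ * deriv (deriv G) (θ + tr ξ) := by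
    rw [hd1]
    funext θ
    rw [deriv_const_mul_field, deriv_comp_add_const]
  have hrho : ∀ α, rho (fun θ => nr ξ * G (θ + tr ξ)) (tk (1, 0) + α) = nr ξ * rho G (tr ξ + α) := by
    intro α
    unfold rho
    rw [hd2, htk]
    simp only
    rw [zero_add, add_comm α]
    ring
  have hgph : ∀ α, gph (fun θ => nr ξ * G (θ + tr ξ)) (1, 0) α = nr ξ * ga G α (tr ξ) := by
    intro α
    unfold gph ga
    rw [hd1, htk]
    simp only
    rw [zero_add, add_comm α]
    ring
  rw [ftr_rot G hξ, ft_polar hG' hk, polar_ibp hG' hk hβ, hnk]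
  simp only [hrho, hgph, one_mul]
  have hrc : (nr ξ : ℂ) ≠ 0 := by exact_mod_cast hr.ne'
  have hπ' : (π : ℂ) ≠ 0 := by exact_mod_cast pi_pos.ne'
  have hI := Complex.I_ne_zero
  have e1 : ∫ α in (-π)..π, ((β * k0 β α * cos α * (nr ξ * rho G (tr ξ + α)) : ℝ) : ℂ) * ee (-(nr ξ * ga G α (tr ξ))) =
      (nr ξ : ℂ) * ∫ α in (-π)..π, ((β * k0 β α * cos α * rho G (tr ξ + α) : ℝ) : ℂ) * ee (-(nr ξ * ga G α (tr ξ))) := by
    rw [← intervalIntegral.integral_const_mul]
    congr 1
    funext α
    push_cast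
    ring
  rw [e1]
  push_cast
  field_simp

end Pool.Agent.Helper22.LP
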