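import Pool.Agent.Helper22.LP.P2

/-!
# LP-P3: the sum of Fourier transforms at real frequencies is an average over `α`

As `vk_bound_o3` (OV.D3a) with `ftr_ibp` in place of `ft_polar`, `polar_ibp`.
-/

open MeasureTheory Real Set Filter Topology

set_option autoImplicit false

namespace Pool.Agent.Helper22.LP

open Pool.Agent.Helper22.AE
open Pool.Agent.Helper22.AC (cntc ga)
open Pool.Agent.Helper22.OV (o3_k0_cont o3_k0_nonneg o3_fd_cont o3_deriv_cd o3_rho_cont)

theorem ga_cont {G : ℝ → ℝ} (hG : ContDiff ℝ 2 G) (t : ℝ) : Continuous fun α => ga G α t := by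
  have h1 := hG.continuous
  have h2 := (o3_deriv_cd hG).continuous
  unfold ga
  fun_prop

theorem vkr_bound {G : ℝ → ℝ} (hG : IsSupp G) (ξ : ℤ × ℤ → ℝ × ℝ) (u : ℤ × ℤ → ℂ) (B : Finset (ℤ × ℤ))
    (hB : ∀ k ∈ B, ξ k ≠ 0) {β : ℝ} (hβ : 0 < β) :
    ‖∑ k ∈ B, ftr G (ξ k) * u k‖ ≤
      β * (∫ α in (-π)..π, k0 β α * ‖∑ k ∈ B, u k / (nr (ξ k) : ℂ) *
        ((rho G (tr (ξ k) + α) : ℝ) : ℂ) * ee (-(nr (ξ k) * ga G α (tr (ξ k))))‖) +
      1 / β * (∫ α in (-π)..π, k0 β α * ‖∑ k ∈ B, u k / (nr (ξ k) : ℂ) ^ 2 * ee (-(nr (ξ k) * ga G α (tr (ξ k))))‖) := by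
  have hkc := o3_k0_cont hβ
  have hfc := o3_fd_cont hβ
  have hrc := o3_rho_cont hG.smooth
  have hEc : ∀ k : ℤ × ℤ, Continuous fun α => ee (-(nr (ξ k) * ga G α (tr (ξ k)))) := by
    intro k
    have h1 := ga_cont hG.smooth (tr (ξ k))
    exact ee_cont.comp (by fun_prop)
  have hpi := Real.pi_pos
  set S1 : ℝ → ℂ := fun α => ∑ k ∈ B, u k / (nr (ξ k) : ℂ) *
        ((rho G (tr (ξ k) + α) : ℝ) : ℂ) * ee (-(nr (ξ k) * ga G α (tr (ξ k)))) with hS1
  set S2 : ℝ → ℂ := fun α => ∑ k ∈ B, u k / (nr (ξ k) : ℂ) ^ 2 *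
        ee (-(nr (ξ k) * ga G α (tr (ξ k)))) with hS2
  have hS1c : Continuous S1 := by
    refine continuous_finsetSum _ (fun k _ => ?_)
    refine Continuous.mul (continuous_const.mul ?_) (hEc k)
    exact Complex.continuous_ofReal.comp (hrc.comp (continuous_const.add continuous_id))
  have hS2c : Continuous S2 := by
    refine continuous_finsetSum _ (fun k _ => ?_)
    exact continuous_const.mul (hEc k)
  -- the exact formula
  have key : ∑ k ∈ B, ftr G (ξ k) * u k =
      -(1 / (2 * π * Complex.I)) * (∫ α in (-π)..π, ((β * k0 β α * cos α : ℝ) : ℂ) * S1 α) +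
      (1 / (2 * π * Complex.I)) ^ 2 * (∫ α in (-π)..π, ((fd β α : ℝ) : ℂ) * S2 α) := by
    have e1 : (∫ α in (-π)..π, ((β * k0 β α * cos α : ℝ) : ℂ) * S1 α) =
        ∑ k ∈ B, u k / (nr (ξ k) : ℂ) *
          ∫ α in (-π)..π, ((β * k0 β α * cos α * rho G (tr (ξ k) + α) : ℝ) : ℂ) * ee (-(nr (ξ k) * ga G α (tr (ξ k)))) := by
      have h1 : ∀ α, ((β * k0 β α * cos α : ℝ) : ℂ) * S1 α = ∑ k ∈ B,
          u k / (nr (ξ k) : ℂ) *
          (((β * k0 β α * cos α * rho G (tr (ξ k) + α) : ℝ) : ℂ) * ee (-(nr (ξ k) * ga G α (tr (ξ k))))) := by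
        intro α
        rw [hS1]
        simp only [Finset.mul_sum]
        refine Finset.sum_congr rfl (fun k _ => ?_)
        push_cast
        ring
      simp only [h1]
      rw [intervalIntegral.integral_finsetSum]
      · refine Finset.sum_congr rfl (fun k _ => ?_)
        rw [intervalIntegral.integral_const_mul]
      · intro k _
        refine Continuous.intervalIntegrable ?_ _ _
        refine continuous_const.mul (Continuous.mul ?_ (hEc k))
        refine Complex.continuous_ofReal.comp (Continuous.mul (by fun_prop) ?_)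
        exact hrc.comp (continuous_const.add continuous_id)
    have e2 : (∫ α in (-π)..π, ((fd β α : ℝ) : ℂ) * S2 α) =
        ∑ k ∈ B, u k / (nr (ξ k) : ℂ) ^ 2 *
          ∫ α in (-π)..π, ((fd β α : ℝ) : ℂ) * ee (-(nr (ξ k) * ga G α (tr (ξ k)))) := by
      have h1 : ∀ α, ((fd β α : ℝ) : ℂ) * S2 α = ∑ k ∈ B,
          u k / (nr (ξ k) : ℂ) ^ 2 *
          (((fd β α : ℝ) : ℂ) * ee (-(nr (ξ k) * ga G α (tr (ξ k))))) := by
        intro α
        rw [hS2]
        simp only [Finset.mul_sum]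
        refine Finset.sum_congr rfl (fun k _ => ?_)
        ring
      simp only [h1]
      rw [intervalIntegral.integral_finsetSum]
      · refine Finset.sum_congr rfl (fun k _ => ?_)
        rw [intervalIntegral.integral_const_mul]
      · intro k _
        refine Continuous.intervalIntegrable ?_ _ _
        exact continuous_const.mul ((Complex.continuous_ofReal.comp hfc).mul (hEc k))
    rw [e1, e2, Finset.mul_sum, Finset.mul_sum, ← Finset.sum_add_distrib]
    refine Finset.sum_congr rfl (fun k hk => ?_)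
    have hk0 := hB k hk
    have hnk : (nr (ξ k) : ℂ) ≠ 0 := by exact_mod_cast (nr_pos hk0).ne'
    have hpi' : (π : ℂ) ≠ 0 := by exact_mod_cast hpi.ne'
    have hI := Complex.I_ne_zero
    rw [ftr_ibp hG hk0 hβ]
    field_simp
    ring
  have hn1 : ‖∫ α in (-π)..π, ((β * k0 β α * cos α : ℝ) : ℂ) * S1 α‖ ≤
      β * ∫ α in (-π)..π, k0 β α * ‖S1 α‖ := by
    rw [← intervalIntegral.integral_const_mul]
    refine (intervalIntegral.norm_integral_le_integral_norm (by linarith)).trans ?_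
    refine intervalIntegral.integral_mono_on (by linarith) ?_ ?_ ?_
    · refine Continuous.intervalIntegrable ?_ _ _
      exact ((Complex.continuous_ofReal.comp (by fun_prop)).mul hS1c).norm
    · refine Continuous.intervalIntegrable ?_ _ _
      exact continuous_const.mul (hkc.mul hS1c.norm)
    · intro α _
      have h0 := o3_k0_nonneg hβ α
      rw [norm_mul, Complex.norm_real, Real.norm_eq_abs, abs_mul, abs_mul, abs_of_pos hβ, abs_of_nonneg h0]
      have hc := Real.abs_cos_le_one α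
      have h1 : β * k0 β α * |cos α| ≤ β * k0 β α * 1 :=
        mul_le_mul_of_nonneg_left hc (mul_nonneg hβ.le h0)
      calc β * k0 β α * |cos α| * ‖S1 α‖ ≤ (β * k0 β α * 1) * ‖S1 α‖ :=
            mul_le_mul_of_nonneg_right h1 (norm_nonneg _)
        _ = β * (k0 β α * ‖S1 α‖) := by ring
  have hn2 : ‖∫ α in (-π)..π, ((fd β α : ℝ) : ℂ) * S2 α‖ ≤
      3 / β * ∫ α in (-π)..π, k0 β α * ‖S2 α‖ := by
    rw [← intervalIntegral.integral_const_mul]
    refine (intervalIntegral.norm_integral_le_integral_norm (by linarith)).trans ?_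
    refine intervalIntegral.integral_mono_on (by linarith) ?_ ?_ ?_
    · refine Continuous.intervalIntegrable ?_ _ _
      exact ((Complex.continuous_ofReal.comp hfc).mul hS2c).norm
    · refine Continuous.intervalIntegrable ?_ _ _
      exact continuous_const.mul (hkc.mul hS2c.norm)
    · intro α _
      rw [norm_mul, Complex.norm_real, Real.norm_eq_abs]
      calc |fd β α| * ‖S2 α‖ ≤ (3 / β * k0 β α) * ‖S2 α‖ :=
            mul_le_mul_of_nonneg_right (fd_le hβ α) (norm_nonneg _)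
        _ = 3 / β * (k0 β α * ‖S2 α‖) := by ring
  have hI1 : 0 ≤ ∫ α in (-π)..π, k0 β α * ‖S1 α‖ :=
    intervalIntegral.integral_nonneg (by linarith)
      (fun α _ => mul_nonneg (o3_k0_nonneg hβ α) (norm_nonneg _))
  have hI2 : 0 ≤ ∫ α in (-π)..π, k0 β α * ‖S2 α‖ :=
    intervalIntegral.integral_nonneg (by linarith)
      (fun α _ => mul_nonneg (o3_k0_nonneg hβ α) (norm_nonneg _))
  have hc1 : ‖-(1 / (2 * π * Complex.I))‖ ≤ 1 := by
    rw [norm_neg, norm_div, norm_mul, norm_mul, Complex.norm_I, Complex.norm_real, norm_one,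
      Real.norm_eq_abs, abs_of_pos hpi, Complex.norm_ofNat, mul_one]
    rw [div_le_one (by positivity)]
    linarith [Real.pi_gt_three]
  have hc2 : ‖(1 / (2 * π * Complex.I)) ^ 2‖ * 3 ≤ 1 := by
    rw [norm_pow, norm_div, norm_mul, norm_mul, Complex.norm_I, Complex.norm_real, norm_one,
      Real.norm_eq_abs, abs_of_pos hpi, Complex.norm_ofNat, mul_one]
    have h3 : 1 / (2 * π) ≤ 1 / 6 := one_div_le_one_div_of_le (by norm_num) (by linarith [Real.pi_gt_three])
    have h4 : 0 ≤ 1 / (2 * π) := by positivity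
    nlinarith
  rw [key]
  refine (norm_add_le _ _).trans ?_
  rw [norm_mul, norm_mul]
  refine add_le_add ?_ ?_
  · calc ‖-(1 / (2 * π * Complex.I))‖ * ‖∫ α in (-π)..π, ((β * k0 β α * cos α : ℝ) : ℂ) * S1 α‖
        ≤ 1 * (β * ∫ α in (-π)..π, k0 β α * ‖S1 α‖) :=
          mul_le_mul hc1 hn1 (norm_nonneg _) zero_le_one
      _ = β * ∫ α in (-π)..π, k0 β α * ‖S1 α‖ := one_mul _
  · calc ‖(1 / (2 * π * Complex.I)) ^ 2‖ * ‖∫ α in (-π)..π, ((fd β α : ℝ) : ℂ) * S2 α‖
        ≤ ‖(1 / (2 * π * Complex.I)) ^ 2‖ * (3 / β * ∫ α in (-π)..π, k0 β α * ‖S2 α‖) :=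
          mul_le_mul_of_nonneg_left hn2 (norm_nonneg _)
      _ = (‖(1 / (2 * π * Complex.I)) ^ 2‖ * 3) * (1 / β * ∫ α in (-π)..π, k0 β α * ‖S2 α‖) := by ring
      _ ≤ 1 * (1 / β * ∫ α in (-π)..π, k0 β α * ‖S2 α‖) :=
          mul_le_mul_of_nonneg_right hc2 (by positivity)
      _ = 1 / β * ∫ α in (-π)..π, k0 β α * ‖S2 α‖ := one_mul _

end Pool.Agent.Helper22.LP
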