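import Pool.Agent.Helper22.LP.Main

/-!
# LP, uniform form: the constants of `lp_main` depend only on the bounds of the oval and of the frame

`errd_le_poisson_u`, `dil_blocks_u`, `lp_main_unif`: as in LP.P5 and LP.Main (whose private lemmas are copied), with explicit constants.
-/

open MeasureTheory Real Set Filter Topology

set_option autoImplicit false

namespace Pool.Agent.Helper22.LP

open Pool.Agent.Helper22.AE
open Pool.Agent.Helper22.AC (cntc ga smcc poisson_c le_smcc smcc_le)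
open Pool.Agent.Helper92.GC (dt sqa oct)
open Pool.Agent.Helper22.OV (o3_k0_nonneg o3_rho_cont)

private lemma d1_nat_p5 : Summable (fun n : ℕ => ((1 + |((n : ℤ) : ℝ)|) ^ 2)⁻¹) := by
  have h0 : Summable (fun n : ℕ => 1 / ((n + 1 : ℕ) : ℝ) ^ 2) :=
    (summable_nat_add_iff 1).mpr (Real.summable_one_div_nat_pow.mpr (by norm_num : 1 < 2))
  refine h0.congr (fun n => ?_)
  have hn : (0 : ℝ) ≤ n := Nat.cast_nonneg n
  rw [Int.cast_natCast, abs_of_nonneg hn, one_div]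
  push_cast
  rw [add_comm]

private lemma d1_int_p5 : Summable (fun n : ℤ => ((1 + |(n : ℝ)|) ^ 2)⁻¹) := by
  apply Summable.of_nat_of_neg
  · exact d1_nat_p5
  · refine d1_nat_p5.congr (fun n => ?_)
    push_cast
    rw [abs_neg]

/-- the majorant of the tail -/
private noncomputable def d2m_p5 (k : ℤ × ℤ) : ℝ := ((1 + |(k.1 : ℝ)|) ^ 2)⁻¹ * ((1 + |(k.2 : ℝ)|) ^ 2)⁻¹

private lemma d1_sum_p5 : Summable d2m_p5 :=
  Summable.mul_of_nonneg d1_int_p5 d1_int_p5 (fun n => by positivity) (fun n => by positivity)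

private lemma d1_nk_p5 (k : ℤ × ℤ) : nk k = sqrt ((k.1 : ℝ) ^ 2 + (k.2 : ℝ) ^ 2) := by
  unfold nk cz
  rw [Complex.norm_def, Complex.normSq_mk]
  congr 1
  ring

private lemma d1_abs_p5 (k : ℤ × ℤ) : |(k.1 : ℝ)| ≤ nk k ∧ |(k.2 : ℝ)| ≤ nk k := by
  rw [d1_nk_p5]
  constructor
  · apply Real.le_sqrt_of_sq_le
    rw [sq_abs]
    nlinarith [sq_nonneg (k.2 : ℝ)]
  · apply Real.le_sqrt_of_sq_le
    rw [sq_abs]
    nlinarith [sq_nonneg (k.1 : ℝ)]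

private lemma d1_one_p5 {k : ℤ × ℤ} (hk : k ≠ 0) : 1 ≤ nk k := by
  rw [d1_nk_p5]
  apply Real.le_sqrt_of_sq_le
  have h1 : (1 : ℤ) ≤ k.1 ^ 2 + k.2 ^ 2 := by
    by_contra hn
    push Not at hn
    apply hk
    have h2 : k.1 ^ 2 = 0 := by nlinarith [sq_nonneg k.1, sq_nonneg k.2]
    have h3 : k.2 ^ 2 = 0 := by nlinarith [sq_nonneg k.1, sq_nonneg k.2]
    ext
    · exact pow_eq_zero_iff (two_ne_zero) |>.mp h2
    · exact pow_eq_zero_iff (two_ne_zero) |>.mp h3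
  have h2 : (1 : ℝ) ≤ (k.1 : ℝ) ^ 2 + (k.2 : ℝ) ^ 2 := by exact_mod_cast h1
  rw [one_pow]
  exact h2

/-- comparison with the majorant -/
private lemma d1_major_p5 {k : ℤ × ℤ} (hk : k ≠ 0) : (nk k ^ 4)⁻¹ ≤ 16 * d2m_p5 k := by
  have h0 := d1_one_p5 hk
  obtain ⟨h1, h2⟩ := d1_abs_p5 k
  have h3 : (1 + |(k.1 : ℝ)|) ^ 2 ≤ (2 * nk k) ^ 2 := pow_le_pow_left₀ (by positivity) (by linarith) 2
  have h4 : (1 + |(k.2 : ℝ)|) ^ 2 ≤ (2 * nk k) ^ 2 := pow_le_pow_left₀ (by positivity) (by linarith) 2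
  have h5 : (1 + |(k.1 : ℝ)|) ^ 2 * (1 + |(k.2 : ℝ)|) ^ 2 ≤ 16 * nk k ^ 4 := by
    have := mul_le_mul h3 h4 (by positivity) (by positivity)
    refine this.trans (le_of_eq ?_)
    ring
  unfold d2m_p5
  rw [← mul_inv, ← div_eq_mul_inv, inv_eq_one_div, div_le_div_iff₀ (by positivity) (by positivity)]
  linarith

/-- a term of the tail -/
private lemma d1_term_p5 {G : ℝ → ℝ} (hG : IsSupp G) {φ : ℝ × ℝ → ℝ} {e2 C1 CA R₀ τ : ℝ} (hτ : τ < 1)
    {A : ℕ} (hA : 5 ≤ e2 * A) (hR : 1 ≤ R₀)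
    (h1 : ∫ t in (0 : ℝ)..(2 * π), rho G t ≤ C1 * (2 * R₀)) (hC1 : 0 ≤ C1)
    (h2 : ∀ x y : ℝ, ‖fhat φ x y‖ * (1 + sqrt (x ^ 2 + y ^ 2)) ^ (A + 4) ≤ CA) (hCA : 0 ≤ CA)
    {k : ℤ × ℤ} (hk : k ≠ 0) {n1 : ℕ} (hn : R₀ ^ (τ + e2) ≤ 2 ^ n1) (hk1 : (2 : ℝ) ^ n1 ≤ nk k) :
    ‖ft G k * fhat φ (R₀ ^ (-τ) * k.1) (R₀ ^ (-τ) * k.2)‖ ≤ 16 * C1 * CA * d2m_p5 k := by
  have hR0 : 0 < R₀ := by linarith
  have h0 := d1_one_p5 hk
  set δ : ℝ := R₀ ^ (-τ) with hδ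
  have hδ0 : 0 < δ := Real.rpow_pos_of_pos hR0 _
  -- the first factor
  have h3 : ‖ft G k‖ ≤ C1 * R₀ / nk k := by
    refine (ft_norm hG hk).trans ?_
    have h4 : (∫ t in (0 : ℝ)..(2 * π), rho G t) / (2 * π * nk k) ≤ C1 * (2 * R₀) / (2 * π * nk k) :=
      div_le_div_of_nonneg_right h1 (by positivity)
    refine h4.trans ?_
    rw [div_le_div_iff₀ (by positivity) (by positivity)]
    have h5 : 1 ≤ π := by linarith [Real.pi_gt_three]
    have h6 : 0 ≤ C1 * R₀ * nk k := by positivity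
    nlinarith
  -- the second factor
  have h4 : sqrt ((δ * (k.1 : ℝ)) ^ 2 + (δ * (k.2 : ℝ)) ^ 2) = δ * nk k := by
    rw [d1_nk_p5, mul_pow, mul_pow, ← mul_add, Real.sqrt_mul (by positivity), Real.sqrt_sq hδ0.le]
  have h5 := h2 (δ * k.1) (δ * k.2)
  rw [h4] at h5
  have h6 : R₀ ^ e2 ≤ δ * nk k := by
    have h7 : R₀ ^ e2 = δ * R₀ ^ (τ + e2) := by
      rw [hδ, ← Real.rpow_add hR0]
      congr 1
      ring
    rw [h7]
    exact mul_le_mul_of_nonneg_left (hn.trans hk1) hδ0.le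
  have h7 : R₀ ^ 5 ≤ (δ * nk k) ^ A := by
    have h8 : (R₀ ^ e2) ^ A ≤ (δ * nk k) ^ A := pow_le_pow_left₀ (by positivity) h6 A
    refine le_trans ?_ h8
    rw [← Real.rpow_natCast (R₀ ^ e2) A, ← Real.rpow_mul hR0.le, ← Real.rpow_natCast R₀ 5]
    exact Real.rpow_le_rpow_of_exponent_le hR (by exact_mod_cast hA)
  have h8 : (R₀ ^ 4)⁻¹ ≤ δ ^ 4 := by
    rw [hδ, ← Real.rpow_natCast (R₀ ^ (-τ)) 4, ← Real.rpow_mul hR0.le, ← Real.rpow_natCast R₀ 4,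
      ← Real.rpow_neg hR0.le]
    apply Real.rpow_le_rpow_of_exponent_le hR
    push_cast
    linarith
  have h9 : R₀ * nk k ^ 4 ≤ (1 + δ * nk k) ^ (A + 4) := by
    have g1 : (δ * nk k) ^ (A + 4) ≤ (1 + δ * nk k) ^ (A + 4) :=
      pow_le_pow_left₀ (by positivity) (by linarith) _
    refine le_trans ?_ g1
    rw [pow_add]
    have g2 : (R₀ ^ 4)⁻¹ * nk k ^ 4 ≤ (δ * nk k) ^ 4 := by
      rw [mul_pow]
      exact mul_le_mul_of_nonneg_right h8 (by positivity)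
    have g3 : R₀ ^ 5 * ((R₀ ^ 4)⁻¹ * nk k ^ 4) ≤ (δ * nk k) ^ A * (δ * nk k) ^ 4 :=
      mul_le_mul h7 g2 (by positivity) (by positivity)
    refine le_trans (le_of_eq ?_) g3
    field_simp
  have h10 : ‖fhat φ (δ * k.1) (δ * k.2)‖ ≤ CA / (R₀ * nk k ^ 4) := by
    rw [le_div_iff₀ (by positivity)]
    exact (mul_le_mul_of_nonneg_left h9 (norm_nonneg _)).trans h5
  rw [norm_mul]
  calc ‖ft G k‖ * ‖fhat φ (δ * k.1) (δ * k.2)‖ ≤ (C1 * R₀ / nk k) * (CA / (R₀ * nk k ^ 4)) :=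
        mul_le_mul h3 h10 (norm_nonneg _) (by positivity)
    _ = C1 * CA * ((nk k)⁻¹ * (nk k ^ 4)⁻¹) := by field_simp
    _ ≤ C1 * CA * (1 * (16 * d2m_p5 k)) := by
        apply mul_le_mul_of_nonneg_left _ (by positivity)
        exact mul_le_mul (inv_le_one_of_one_le₀ h0) (d1_major_p5 hk) (by positivity) (by positivity)
    _ = 16 * C1 * CA * d2m_p5 k := by ring

private lemma sq_mem_p5 {n : ℕ} {k : ℤ × ℤ} :
    k ∈ sqa (2 ^ n) ↔ (2 : ℤ) ^ n ≤ max |k.1| |k.2| ∧ max |k.1| |k.2| < 2 ^ (n + 1) := by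
  unfold sqa
  rw [Finset.mem_filter]
  push_cast
  have e : (2 : ℤ) * 2 ^ n = 2 ^ (n + 1) := by ring
  rw [e, le_max_iff, max_lt_iff]
  constructor
  · exact fun h => h.2
  · intro h
    refine ⟨?_, h⟩
    unfold box
    rw [Finset.mem_product, Finset.mem_Icc, Finset.mem_Icc]
    push_cast
    rw [e]
    exact ⟨abs_le.mp h.2.1.le, abs_le.mp h.2.2.le⟩

private lemma sq_disj_p5 (n1 : ℕ) :
    (Finset.range n1 : Set ℕ).PairwiseDisjoint (fun n => sqa (2 ^ n)) := by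
  intro m _ n _ hmn
  rw [Function.onFun, Finset.disjoint_left]
  intro k h1 h2
  rw [sq_mem_p5] at h1 h2
  rcases lt_or_gt_of_ne hmn with h | h
  · have h3 : (2 : ℤ) ^ (m + 1) ≤ 2 ^ n := pow_le_pow_right₀ (by norm_num) h
    linarith [h1.2, h2.1]
  · have h3 : (2 : ℤ) ^ (n + 1) ≤ 2 ^ m := pow_le_pow_right₀ (by norm_num) h
    linarith [h1.1, h2.2]

private lemma sq_nk_p5 (k : ℤ × ℤ) : ((max |k.1| |k.2| : ℤ) : ℝ) ≤ nk k := by
  push_cast
  exact max_le (d1_abs_p5 k).1 (d1_abs_p5 k).2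

private lemma sq_one_p5 {k : ℤ × ℤ} (hk : k ≠ 0) : 1 ≤ max |k.1| |k.2| := by
  by_contra h
  push Not at h
  apply hk
  rw [max_lt_iff] at h
  ext
  · exact Int.abs_lt_one_iff.mp h.1
  · exact Int.abs_lt_one_iff.mp h.2

private lemma sq_out_p5 {n1 : ℕ} {k : ℤ × ℤ} (hk : k ≠ 0) (h : ∀ n < n1, k ∉ sqa (2 ^ n)) :
    (2 : ℤ) ^ n1 ≤ max |k.1| |k.2| := by
  induction n1 with
  | zero => simpa using sq_one_p5 hk
  | succ n ih =>
    have h1 := ih (fun m hm => h m (by omega))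
    have h2 := h n (by omega)
    rw [sq_mem_p5] at h2
    by_contra hn
    push Not at hn
    exact h2 ⟨h1, hn⟩

private lemma bump_int_p5 {φ : ℝ × ℝ → ℝ} (hφ : IsBump φ) : Integrable φ := by
  refine hφ.cont.integrable_of_hasCompactSupport ?_
  apply HasCompactSupport.intro (K := Icc (-1 : ℝ) 1 ×ˢ Icc (-1 : ℝ) 1) (isCompact_Icc.prod isCompact_Icc)
  intro p hp
  apply hφ.supp
  by_contra h
  push Not at h
  apply hp
  refine ⟨abs_le.mp ?_, abs_le.mp ?_⟩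
  · exact (sq_le_one_iff_abs_le_one p.1).mp (by nlinarith [sq_nonneg p.2])
  · exact (sq_le_one_iff_abs_le_one p.2).mp (by nlinarith [sq_nonneg p.1])

/-- the smoothing factor is an average over translations of the centre -/
private lemma block_p5 {φ : ℝ × ℝ → ℝ} (hφ : IsBump φ) (S : Finset (ℤ × ℤ)) (a : ℤ × ℤ → ℂ) (δ : ℝ)
    (c : ℝ × ℝ) {B : ℝ} (hB : ∀ c' : ℝ × ℝ, ‖∑ k ∈ S, a k * ee (dt k c')‖ ≤ B) :
    ‖∑ k ∈ S, a k * fhat φ (δ * k.1) (δ * k.2) * ee (-((k.1 : ℝ) * c.1 + (k.2 : ℝ) * c.2))‖ ≤ B := by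
  have hφi := bump_int_p5 hφ
  have hφc : Integrable (fun p => (φ p : ℂ)) := hφi.ofReal
  have hee : ∀ k : ℤ × ℤ, Continuous fun p : ℝ × ℝ =>
      ee (-(δ * (k.1 : ℝ) * p.1 + δ * (k.2 : ℝ) * p.2)) := by
    intro k
    exact ee_cont.comp (by fun_prop)
  have hint : ∀ k : ℤ × ℤ, Integrable (fun p : ℝ × ℝ =>
      ee (-(δ * (k.1 : ℝ) * p.1 + δ * (k.2 : ℝ) * p.2)) * (φ p : ℂ)) := by
    intro k
    refine hφc.bdd_mul (c := 1) (hee k).aestronglyMeasurable ?_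
    exact Filter.Eventually.of_forall fun p => (ee_norm _).le
  have e1 : ∑ k ∈ S, a k * fhat φ (δ * k.1) (δ * k.2) *
        ee (-((k.1 : ℝ) * c.1 + (k.2 : ℝ) * c.2)) =
      ∫ p : ℝ × ℝ, (∑ k ∈ S, a k * ee (dt k (-c.1 - δ * p.1, -c.2 - δ * p.2))) * (φ p : ℂ) := by
    have e2 : ∀ p : ℝ × ℝ,
        (∑ k ∈ S, a k * ee (dt k (-c.1 - δ * p.1, -c.2 - δ * p.2))) * (φ p : ℂ) =
        ∑ k ∈ S, (a k * ee (-((k.1 : ℝ) * c.1 + (k.2 : ℝ) * c.2))) *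
          (ee (-(δ * (k.1 : ℝ) * p.1 + δ * (k.2 : ℝ) * p.2)) * (φ p : ℂ)) := by
      intro p
      rw [Finset.sum_mul]
      refine Finset.sum_congr rfl fun k _ => ?_
      have e3 : dt k (-c.1 - δ * p.1, -c.2 - δ * p.2) =
          -((k.1 : ℝ) * c.1 + (k.2 : ℝ) * c.2) + -(δ * (k.1 : ℝ) * p.1 + δ * (k.2 : ℝ) * p.2) := by
        unfold dt
        ring
      rw [e3, ee_add]
      ring
    simp only [e2]
    rw [integral_finsetSum _ fun k _ => (hint k).const_mul _]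
    refine Finset.sum_congr rfl fun k _ => ?_
    rw [integral_const_mul]
    unfold fhat
    ring
  rw [e1]
  have hB0 : 0 ≤ B := (norm_nonneg _).trans (hB 0)
  calc ‖∫ p : ℝ × ℝ, (∑ k ∈ S, a k * ee (dt k (-c.1 - δ * p.1, -c.2 - δ * p.2))) * (φ p : ℂ)‖
      ≤ ∫ p : ℝ × ℝ, B * φ p := by
        refine norm_integral_le_of_norm_le (hφi.const_mul B) ?_
        refine Filter.Eventually.of_forall fun p => ?_
        rw [norm_mul, Complex.norm_real, Real.norm_eq_abs, abs_of_nonneg (hφ.nonneg p)]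
        exact mul_le_mul_of_nonneg_right (hB _) (hφ.nonneg p)
    _ = B := by
        rw [integral_const_mul, hφ.int_one, mul_one]

private lemma ft_zero_p5 (G : ℝ → ℝ) : ft G 0 = (((volume (dom G)).toReal : ℝ) : ℂ) := by
  unfold ft
  have h : ∀ p : ℝ × ℝ, ee (-((((0 : ℤ × ℤ).1 : ℤ) : ℝ) * p.1 + (((0 : ℤ × ℤ).2 : ℤ) : ℝ) * p.2)) = 1 := by
    intro p
    simp [ee_zero]
  simp only [h]
  rw [MeasureTheory.setIntegral_const]
  simp [Measure.real]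

private lemma fhat_zero_p5 {φ : ℝ × ℝ → ℝ} (hφ : IsBump φ) : fhat φ 0 0 = 1 := by
  unfold fhat
  have h : ∀ p : ℝ × ℝ, ee (-((0 : ℝ) * p.1 + 0 * p.2)) * (φ p : ℂ) = ((φ p : ℝ) : ℂ) := by
    intro p
    simp [ee_zero]
  simp only [h]
  rw [integral_complex_ofReal, hφ.int_one]
  simp

/-- the smoothed count is the area plus the nonzero frequencies -/
private lemma smcc_eq_p5 {G : ℝ → ℝ} (hG : IsSupp G) {φ : ℝ × ℝ → ℝ} (hφ : IsBump φ) {δ : ℝ} (hδ : 0 < δ)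
    (c : ℝ × ℝ) :
    ((smcc φ δ G c : ℝ) : ℂ) = (((volume (dom G)).toReal : ℝ) : ℂ) +
      ∑' k : {k : ℤ × ℤ // k ≠ 0}, ft G k * fhat φ (δ * (k : ℤ × ℤ).1) (δ * (k : ℤ × ℤ).2) *
        ee (-(((k : ℤ × ℤ).1 : ℝ) * c.1 + ((k : ℤ × ℤ).2 : ℝ) * c.2)) := by
  have h1 := poisson_c hG hφ hδ c
  have h2 := h1.summable.sum_add_tsum_compl (s := {0})
  rw [h1.tsum_eq, Finset.sum_singleton, ft_zero_p5] at h2
  have h3 : fhat φ (δ * (((0 : ℤ × ℤ).1 : ℤ) : ℝ)) (δ * (((0 : ℤ × ℤ).2 : ℤ) : ℝ)) = 1 := by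
    rw [← fhat_zero_p5 hφ]
    simp
  have h4 : ee (-((((0 : ℤ × ℤ).1 : ℤ) : ℝ) * c.1 + (((0 : ℤ × ℤ).2 : ℤ) : ℝ) * c.2)) = 1 := by
    simp [ee_zero]
  rw [h3, h4, mul_one, mul_one] at h2
  rw [← h2]
  congr 1
  refine (Equiv.tsum_eq (Equiv.subtypeEquivRight (fun k => ?_))
    (fun k : {k : ℤ × ℤ // k ≠ 0} => ft G k * fhat φ (δ * (k : ℤ × ℤ).1) (δ * (k : ℤ × ℤ).2) *
      ee (-(((k : ℤ × ℤ).1 : ℝ) * c.1 + ((k : ℤ × ℤ).2 : ℝ) * c.2))))
  simp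

private lemma smcc_re_p5 {G : ℝ → ℝ} (hG : IsSupp G) {φ : ℝ × ℝ → ℝ} (hφ : IsBump φ) {δ : ℝ} (hδ : 0 < δ)
    (c : ℝ × ℝ) :
    |smcc φ δ G c - (volume (dom G)).toReal| ≤
      ‖∑' k : {k : ℤ × ℤ // k ≠ 0}, ft G k * fhat φ (δ * (k : ℤ × ℤ).1) (δ * (k : ℤ × ℤ).2) *
        ee (-(((k : ℤ × ℤ).1 : ℝ) * c.1 + ((k : ℤ × ℤ).2 : ℝ) * c.2))‖ := by
  have h1 := smcc_eq_p5 hG hφ hδ c
  have h2 : ∑' k : {k : ℤ × ℤ // k ≠ 0}, ft G k * fhat φ (δ * (k : ℤ × ℤ).1) (δ * (k : ℤ × ℤ).2) *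
        ee (-(((k : ℤ × ℤ).1 : ℝ) * c.1 + ((k : ℤ × ℤ).2 : ℝ) * c.2)) =
      ((smcc φ δ G c - (volume (dom G)).toReal : ℝ) : ℂ) := by
    push_cast
    rw [h1]
    ring
  rw [h2, Complex.norm_real, Real.norm_eq_abs]

theorem errd_le_poisson_u {H : ℝ → ℝ} (hH : IsSupp H) {φ : ℝ × ℝ → ℝ} (hφ : IsBump φ) {τ : ℝ} (h0 : 0 < τ) {m : ℝ} (hm : 0 < m)
    (hmH : ∀ θ, m ≤ H θ) :
    ∀ R₀ : ℝ, max 1 (2 / m) ≤ R₀ → ∀ R ∈ Icc R₀ (2 * R₀), ∀ c : ℝ × ℝ, ∃ r ∈ Icc (R₀ / 2) (4 * R₀),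
      IsSupp (fun θ => r * H θ) ∧
      |cntc H c R - area H * R ^ 2| ≤ area H * (5 / m) * R₀ ^ (1 - τ) +
        ‖∑' k : {k : ℤ × ℤ // k ≠ 0}, ft (fun θ => r * H θ) k *
          fhat φ (R₀ ^ (-τ) * (k : ℤ × ℤ).1) (R₀ ^ (-τ) * (k : ℤ × ℤ).2) *
            ee (-(((k : ℤ × ℤ).1 : ℝ) * c.1 + ((k : ℤ × ℤ).2 : ℝ) * c.2))‖ := by
  have ha : 0 ≤ area H := ENNReal.toReal_nonneg
  intro R₀ hR₀ R hR c
  have hR₀3 : 1 ≤ R₀ := (le_max_left _ _).trans hR₀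
  have hR₀4 : 2 / m ≤ R₀ := (le_max_right _ _).trans hR₀
  have hR₀p : 0 < R₀ := by linarith
  have hRp : 0 < R := by linarith [hR.1]
  set δ : ℝ := R₀ ^ (-τ) with hδdef
  have hδ0 : 0 < δ := Real.rpow_pos_of_pos hR₀p _
  have hδ1 : δ ≤ 1 := Real.rpow_le_one_of_one_le_of_nonpos hR₀3 (by linarith)
  have hδR : R₀ * δ = R₀ ^ (1 - τ) := by
    rw [hδdef]
    nth_rewrite 1 [← Real.rpow_one R₀]
    rw [← Real.rpow_add hR₀p]
    congr 1
  have hdm : δ / m ≤ R₀ / 2 := by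
    have h1 : δ / m ≤ 1 / m := div_le_div_of_nonneg_right hδ1 hm.le
    have h2 : 1 / m = 2 / m / 2 := by ring
    linarith
  have hdm0 : 0 < δ / m := by positivity
  have hsupp : ∀ r : ℝ, R₀ / 2 ≤ r → IsSupp (fun θ => r * H θ) := by
    intro r hr
    have h := rot_isSupp hH (r := r) (by linarith) 0
    simpa using h
  have hvol : ∀ r : ℝ, R₀ / 2 ≤ r → (volume (dom (fun θ => r * H θ))).toReal = r ^ 2 * area H := by
    intro r hr
    exact area_scale hH (by linarith)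
  have harea : ∀ d : ℝ, |d| = δ / m → |(R + d) ^ 2 * area H - R ^ 2 * area H| ≤ area H * (5 / m) * R₀ ^ (1 - τ) := by
    intro d hd
    have e1 : (R + d) ^ 2 * area H - R ^ 2 * area H = area H * (d * (2 * R + d)) := by ring
    have h1 : |2 * R + d| ≤ 5 * R₀ := by
      refine (abs_add_le _ _).trans ?_
      rw [abs_of_pos (by positivity), hd]
      linarith [hR.2]
    rw [e1, abs_mul, abs_of_nonneg ha, abs_mul, hd, ← hδR]
    calc area H * (δ / m * |2 * R + d|) ≤ area H * (δ / m * (5 * R₀)) := by gcongr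
      _ = area H * (5 / m) * (R₀ * δ) := by ring
  have hcnt : cntc H c R =
      (Nat.card {k : ℤ × ℤ // ((k.1 : ℝ) - c.1, (k.2 : ℝ) - c.2) ∈ dom (fun θ => R * H θ)} : ℝ) := rfl
  have hstep : ∀ θ, δ ≤ δ / m * H θ := by
    intro θ
    have h1 := mul_le_mul_of_nonneg_left (hmH θ) hdm0.le
    rwa [div_mul_cancel₀ _ hm.ne'] at h1
  rcases le_total 0 (cntc H c R - area H * R ^ 2) with h0 | h0
  · have hr1 : R₀ / 2 ≤ R + δ / m := by linarith [hR.1]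
    have hr2 : R + δ / m ≤ 4 * R₀ := by linarith [hR.2]
    refine ⟨R + δ / m, ⟨hr1, hr2⟩, hsupp _ hr1, ?_⟩
    have h1 : cntc H c R ≤ smcc φ δ (fun θ => (R + δ / m) * H θ) c := by
      rw [hcnt]
      exact le_smcc (hsupp R (by linarith [hR.1])) (hsupp _ hr1) hφ hδ0 (fun θ => by
        have := hstep θ
        linarith) c
    have h2 := smcc_re_p5 (hsupp _ hr1) hφ hδ0 c
    rw [hvol _ hr1] at h2
    have h3 := harea (δ / m) (abs_of_pos hdm0)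
    rw [abs_of_nonneg h0]
    have h4 := le_abs_self (smcc φ δ (fun θ => (R + δ / m) * H θ) c - (R + δ / m) ^ 2 * area H)
    have h5 := le_abs_self ((R + δ / m) ^ 2 * area H - R ^ 2 * area H)
    linarith
  · have hr1 : R₀ / 2 ≤ R + -(δ / m) := by linarith [hR.1]
    have hr2 : R + -(δ / m) ≤ 4 * R₀ := by linarith [hR.2]
    refine ⟨R + -(δ / m), ⟨hr1, hr2⟩, hsupp _ hr1, ?_⟩
    have h1 : smcc φ δ (fun θ => (R + -(δ / m)) * H θ) c ≤ cntc H c R := by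
      rw [hcnt]
      exact smcc_le (hsupp _ hr1) (hsupp R (by linarith [hR.1])) hφ hδ0 (fun θ => by
        have := hstep θ
        linarith) c
    have h2 := smcc_re_p5 (hsupp _ hr1) hφ hδ0 c
    rw [hvol _ hr1] at h2
    have h3 := harea (-(δ / m)) (by rw [abs_neg, abs_of_pos hdm0])
    rw [abs_of_nonpos h0]
    have h4 := neg_abs_le (smcc φ δ (fun θ => (R + -(δ / m)) * H θ) c - (R + -(δ / m)) ^ 2 * area H)
    have h5 := neg_abs_le ((R + -(δ / m)) ^ 2 * area H - R ^ 2 * area H)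
    linarith

private lemma u_rho (G : ℝ → ℝ) (r θ : ℝ) : rho (fun θ => r * G θ) θ = r * rho G θ := by
  have h1 : deriv (fun θ => r * G θ) = fun θ => r * deriv G θ := by
    funext x
    rw [deriv_const_mul_field]
  unfold rho
  rw [h1, deriv_const_mul_field]
  ring

theorem dil_blocks_u {τ e2 m I A0 : ℝ} (h0 : 0 < τ) (h1 : τ < 1) (he2 : 0 < e2) (hm : 0 < m) :
    ∃ C R₁ : ℝ, 0 < R₁ ∧ ∀ H : ℝ → ℝ, IsSupp H → (∀ θ, m ≤ H θ) → (∫ t in (0 : ℝ)..(2 * π), rho H t ≤ I) → area H ≤ A0 → ∀ R₀ : ℝ, R₁ ≤ R₀ → ∀ n1 : ℕ, R₀ ^ (τ + e2) ≤ 2 ^ n1 → ∀ B : ℕ → ℝ,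
      (∀ n < n1, ∀ r ∈ Icc (R₀ / 2) (4 * R₀), ∀ c' : ℝ × ℝ, ‖∑ k ∈ sqa (2 ^ n), ft (fun θ => r * H θ) k * ee (dt k c')‖ ≤ B n) →
      ∀ R ∈ Icc R₀ (2 * R₀), ∀ c : ℝ × ℝ,
        |cntc H c R - area H * R ^ 2| ≤ C * R₀ ^ (1 - τ) + ∑ n ∈ Finset.range n1, B n := by
  classical
  obtain ⟨φ, hφ⟩ := exists_bump
  obtain ⟨A, hA⟩ : ∃ A : ℕ, 5 ≤ e2 * A := by
    obtain ⟨A, hA⟩ := exists_nat_ge (5 / e2)
    refine ⟨A, ?_⟩
    rw [div_le_iff₀ he2] at hA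
    linarith
  obtain ⟨CA, hCA⟩ := hφ.decay (A + 4)
  have hCA0 : 0 ≤ CA := le_trans (by positivity) (hCA 0 0)
  set T0 : ℝ := 16 * (2 * |I|) * CA * ∑' k, d2m_p5 k with hT0
  have hT0' : 0 ≤ T0 := by
    have h1 : 0 ≤ ∑' k, d2m_p5 k := tsum_nonneg (fun k => by unfold d2m_p5; positivity)
    rw [hT0]
    positivity
  refine ⟨A0 * (5 / m) + T0, max (max 1 (2 / m)) 2, lt_max_of_lt_right (by norm_num), ?_⟩
  intro H hH hmH hI hA0 R₀ hR₀ n1 hn1 Bn hBn R hR c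
  have hR1 : max 1 (2 / m) ≤ R₀ := (le_max_left _ _).trans hR₀
  have hR22 : 2 ≤ R₀ := (le_max_right _ _).trans hR₀
  have hR2 : 1 ≤ R₀ := by linarith
  have hR0 : 0 < R₀ := by linarith
  obtain ⟨r, hr, hS, hb'⟩ := errd_le_poisson_u hH hφ h0 hm hmH R₀ hR1 R hR c
  have hb := hb'.trans (add_le_add_left (mul_le_mul_of_nonneg_right (mul_le_mul_of_nonneg_right hA0
    (show 0 ≤ 5 / m by positivity)) (Real.rpow_nonneg hR0.le (1 - τ))) _)
  refine hb.trans ?_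
  set δ : ℝ := R₀ ^ (-τ) with hδ
  have hδ0 : 0 < δ := Real.rpow_pos_of_pos hR0 _
  have hδ1 : δ ≤ 1 := Real.rpow_le_one_of_one_le_of_nonpos hR2 (by linarith)
  set G : ℝ → ℝ := fun θ => r * H θ with hG
  set T : ℤ × ℤ → ℂ := fun k => ft G k * fhat φ (δ * k.1) (δ * k.2) *
    ee (-((k.1 : ℝ) * c.1 + (k.2 : ℝ) * c.2)) with hT
  have hTn : ∀ k, ‖T k‖ = ‖ft G k * fhat φ (δ * k.1) (δ * k.2)‖ := by
    intro k
    rw [hT]
    simp only [norm_mul, ee_norm, mul_one]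
  have hrho : ∫ t in (0 : ℝ)..(2 * π), rho G t ≤ (2 * |I|) * (2 * R₀) := by
    have e : ∀ t, rho G t = r * rho H t := fun t => u_rho H r t
    simp only [e]
    rw [intervalIntegral.integral_const_mul]
    have h2 : r * (∫ t in (0 : ℝ)..(2 * π), rho H t) ≤ 4 * R₀ * |I| :=
      (mul_le_mul_of_nonneg_left (hI.trans (le_abs_self I)) (by linarith [hr.1])).trans
        (mul_le_mul_of_nonneg_right hr.2 (abs_nonneg _))
    linarith
  set B : Finset (ℤ × ℤ) := (Finset.range n1).biUnion (fun n => sqa (2 ^ n)) with hB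
  -- the rest
  set g : ℤ × ℤ → ℂ := fun k => if k = 0 ∨ k ∈ B then 0 else T k with hg
  have hgle : ∀ k, ‖g k‖ ≤ 16 * (2 * |I|) * CA * d2m_p5 k := by
    intro k
    by_cases hk : k = 0 ∨ k ∈ B
    · rw [hg]
      simp only [hk, if_true, norm_zero]
      unfold d2m_p5
      positivity
    · rw [hg]
      simp only [hk, if_false]
      push Not at hk
      obtain ⟨hk0, hkB⟩ := hk
      rw [hTn]
      have h2 : (2 : ℤ) ^ n1 ≤ max |k.1| |k.2| := by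
        refine sq_out_p5 hk0 ?_
        intro n hn hmem
        exact hkB (Finset.mem_biUnion.mpr ⟨n, Finset.mem_range.mpr hn, hmem⟩)
      have h3 : (2 : ℝ) ^ n1 ≤ nk k := by
        refine le_trans ?_ (sq_nk_p5 k)
        exact_mod_cast h2
      exact d1_term_p5 hS h1 hA hR2 hrho (by positivity) hCA hCA0 hk0 hn1 h3
  have hmaj : Summable (fun k => 16 * (2 * |I|) * CA * d2m_p5 k) := d1_sum_p5.mul_left _
  have hgs : Summable (fun k => ‖g k‖) := Summable.of_nonneg_of_le (fun k => norm_nonneg _) hgle hmaj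
  have hB0 : (0 : ℤ × ℤ) ∉ B := by
    intro h
    obtain ⟨n, -, h1⟩ := Finset.mem_biUnion.mp h
    rw [sq_mem_p5] at h1
    have h3 : (0 : ℤ) < 2 ^ n := by positivity
    have h4 := h1.1
    simp only [Prod.fst_zero, Prod.snd_zero, abs_zero, max_self] at h4
    linarith
  have hsplit : ∑' k : {k : ℤ × ℤ // k ≠ 0}, T k = ∑ k ∈ B, T k + ∑' k, g k := by
    have e1 : ∑' k : {k : ℤ × ℤ // k ≠ 0}, T k = ∑' k, ({k : ℤ × ℤ | k ≠ 0}).indicator T k :=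
      tsum_subtype {k : ℤ × ℤ | k ≠ 0} T
    have e2 : ∀ k, ({k : ℤ × ℤ | k ≠ 0}).indicator T k = (if k ∈ B then T k else 0) + g k := by
      intro k
      by_cases h1 : k = 0
      · subst h1
        simp [hg, hB0]
      · by_cases h2 : k ∈ B
        · simp [hg, h1, h2, Set.indicator]
        · simp [hg, h1, h2, Set.indicator]
    rw [e1, tsum_congr e2, Summable.tsum_add]
    · congr 1
      rw [tsum_eq_sum (s := B) (fun k hk => by simp [hk])]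
      exact Finset.sum_congr rfl (fun k hk => by simp [hk])
    · exact summable_of_hasFiniteSupport (B.finite_toSet.subset (fun k hk => by
        by_contra h1
        rw [Function.mem_support] at hk
        apply hk
        have : k ∉ B := h1
        simp [this]))
    · exact hgs.of_norm
  have hsumB : ∑ k ∈ B, T k = ∑ n ∈ Finset.range n1, ∑ k ∈ sqa (2 ^ n), T k := by
    rw [hB, Finset.sum_biUnion (sq_disj_p5 n1)]
  have hblk : ∀ n ∈ Finset.range n1, ‖∑ k ∈ sqa (2 ^ n), T k‖ ≤ Bn n := by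
    intro n hn
    refine block_p5 hφ (sqa (2 ^ n)) (ft G) δ c ?_
    exact fun c' => hBn n (Finset.mem_range.mp hn) r hr c'
  have htail : ‖∑' k, g k‖ ≤ T0 := by
    refine (norm_tsum_le_tsum_norm hgs).trans ?_
    refine (Summable.tsum_le_tsum hgle hgs hmaj).trans (le_of_eq ?_)
    rw [hT0, tsum_mul_left]
  have hroot : 1 ≤ R₀ ^ (1 - τ) := Real.one_le_rpow hR2 (by linarith)
  have hfin : ‖∑' k : {k : ℤ × ℤ // k ≠ 0}, T k‖ ≤ ∑ n ∈ Finset.range n1, Bn n + T0 := by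
    rw [hsplit, hsumB]
    exact (norm_add_le _ _).trans
      (add_le_add ((norm_sum_le _ _).trans (Finset.sum_le_sum hblk)) htail)
  have hfin2 : T0 ≤ T0 * R₀ ^ (1 - τ) := by nlinarith
  have hfin3 : (A0 * (5 / m) + T0) * R₀ ^ (1 - τ) = A0 * (5 / m) * R₀ ^ (1 - τ) + T0 * R₀ ^ (1 - τ) := by ring
  rw [hfin3]
  linarith



/-- a frequency in `sqa N` has `|k₁| + |k₂| ≥ N` -/
theorem u_nk {N : ℕ} {k : ℤ × ℤ} (hk : k ∈ sqa N) : (N : ℝ) ≤ |(k.1 : ℝ)| + |(k.2 : ℝ)| := by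
  unfold sqa at hk
  rw [Finset.mem_filter] at hk
  have h := hk.2.1
  rcases h with h | h
  · have h1 : (N : ℝ) ≤ |(k.1 : ℝ)| := by exact_mod_cast h
    have h2 := abs_nonneg (k.2 : ℝ)
    linarith
  · have h1 : (N : ℝ) ≤ |(k.2 : ℝ)| := by exact_mod_cast h
    have h2 := abs_nonneg (k.1 : ℝ)
    linarith

/-- the area is bounded by the maximum of the support function -/
theorem area_le_u {G : ℝ → ℝ} {B : ℝ} (hB : 0 ≤ B) (h : ∀ θ, G θ ≤ B) : area G ≤ 4 * B ^ 2 := by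
  have hsub : dom G ⊆ Icc (-B) B ×ˢ Icc (-B) B := by
    intro p hp
    have h1 := (hp 0).trans (h 0)
    have h2 := (hp π).trans (h π)
    have h3 := (hp (π / 2)).trans (h (π / 2))
    have h4 := (hp (-(π / 2))).trans (h (-(π / 2)))
    simp only [cos_zero, sin_zero, cos_pi, sin_pi, cos_pi_div_two, sin_pi_div_two, cos_neg, sin_neg, mul_one, mul_zero, add_zero, zero_add, mul_neg] at h1 h2 h3 h4
    exact ⟨⟨by linarith, h1⟩, ⟨by linarith, h3⟩⟩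
  have hv : volume (Icc (-B) B ×ˢ Icc (-B) B : Set (ℝ × ℝ)) = ENNReal.ofReal (4 * B ^ 2) := by
    rw [Measure.volume_eq_prod, Measure.prod_prod, Real.volume_Icc, ← ENNReal.ofReal_mul (by linarith)]
    congr 1
    ring
  unfold area
  have := ENNReal.toReal_mono (by rw [hv]; exact ENNReal.ofReal_ne_top) (measure_mono hsub)
  rwa [hv, ENNReal.toReal_ofReal (by positivity)] at this

private lemma u_cs (v w : ℝ × ℝ) : |v.1 * w.2 - v.2 * w.1| ≤ nr v * nr w := by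
  rw [nr_eq, nr_eq, ← sqrt_mul (by positivity)]
  refine Real.abs_le_sqrt ?_
  nlinarith [sq_nonneg (v.1 * w.1 + v.2 * w.2)]

private lemma u_fdet (f : Fr) (x y : ℝ) : (|x| + |y|) * |fdet f| ≤ 2 * (nr (fv f x y) * (nr f.1 + nr f.2)) := by
  have h1 : 0 ≤ nr f.1 := norm_nonneg _
  have h2 : 0 ≤ nr f.2 := norm_nonneg _
  have e1 : x * fdet f = (fv f x y).1 * f.2.2 - (fv f x y).2 * f.2.1 := by
    unfold fv fdet
    ring
  have e2 : y * fdet f = f.1.1 * (fv f x y).2 - f.1.2 * (fv f x y).1 := by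
    unfold fv fdet
    ring
  have g1 : |x| * |fdet f| ≤ nr (fv f x y) * (nr f.1 + nr f.2) := by
    rw [← abs_mul, e1]
    refine (u_cs (fv f x y) f.2).trans ?_
    exact mul_le_mul_of_nonneg_left (by linarith) (norm_nonneg _)
  have g2 : |y| * |fdet f| ≤ nr (fv f x y) * (nr f.1 + nr f.2) := by
    rw [← abs_mul, e2]
    refine (u_cs f.1 (fv f x y)).trans ?_
    rw [mul_comm]
    exact mul_le_mul_of_nonneg_left (by linarith) (norm_nonneg _)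
  linarith

/-- the lower bound of the length of the frequencies, explicit -/
theorem fk_low_u {f : Fr} {M : ℝ} (hM : 1 ≤ M) (hf1 : nr f.1 + nr f.2 ≤ M) (hf2 : 1 / M ≤ |fdet f|) (N : ℕ) :
    ∀ k ∈ sqa N, 1 / (2 * M ^ 2) * N ≤ nr (fk f k) := by
  intro k hk
  have hM0 : 0 < M := by linarith
  have h3 := Pool.Agent.Helper22.LP.u_nk hk
  have h5 := u_fdet f k.1 k.2
  have h6 : (N : ℝ) * (1 / M) ≤ 2 * (nr (fk f k) * M) := by
    calc (N : ℝ) * (1 / M) ≤ (|(k.1 : ℝ)| + |(k.2 : ℝ)|) * |fdet f| :=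
          mul_le_mul h3 hf2 (by positivity) (by positivity)
      _ ≤ _ := h5
      _ ≤ _ := mul_le_mul_of_nonneg_left (mul_le_mul_of_nonneg_left hf1 (norm_nonneg _)) (by norm_num)
  have h7 : 1 / (2 * M ^ 2) * (N : ℝ) = ((N : ℝ) * (1 / M)) / (2 * M) := by
    field_simp
  rw [h7, div_le_iff₀ (by positivity)]
  linarith

private lemma u_nr_le (f : Fr) (t : ℝ) : nr (fv f (cos t) (sin t)) ≤ nr f.1 + nr f.2 := by
  have e : cp (fv f (cos t) (sin t)) = ((cos t : ℝ) : ℂ) * cp f.1 + ((sin t : ℝ) : ℂ) * cp f.2 := by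
    apply Complex.ext
    · simp only [cp, fv, Complex.add_re, Complex.re_ofReal_mul]
    · simp only [cp, fv, Complex.add_im, Complex.im_ofReal_mul]
  unfold nr
  rw [e]
  refine (norm_add_le _ _).trans ?_
  rw [norm_mul, norm_mul]
  have h1 : ‖((cos t : ℝ) : ℂ)‖ ≤ 1 := by
    rw [Complex.norm_real]
    exact abs_cos_le_one t
  have h2 : ‖((sin t : ℝ) : ℂ)‖ ≤ 1 := by
    rw [Complex.norm_real]
    exact abs_sin_le_one t
  have h3 : 0 ≤ ‖cp f.1‖ := norm_nonneg _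
  have h4 : 0 ≤ ‖cp f.2‖ := norm_nonneg _
  nlinarith

private lemma u_nr_ge {f : Fr} {M : ℝ} (hM : 1 ≤ M) (hf1 : nr f.1 + nr f.2 ≤ M) (hf2 : 1 / M ≤ |fdet f|) (t : ℝ) :
    1 / (2 * M ^ 2) ≤ nr (fv f (cos t) (sin t)) := by
  have hM0 : 0 < M := by linarith
  have h5 := u_fdet f (cos t) (sin t)
  have h1 : 1 ≤ |cos t| + |sin t| := by
    have h2 := cos_sq_add_sin_sq t
    have h3 := abs_cos_le_one t
    have h4 := abs_sin_le_one t
    have e3 := sq_abs (cos t)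
    have e4 := sq_abs (sin t)
    have h6 := abs_nonneg (cos t)
    have h7 := abs_nonneg (sin t)
    nlinarith
  have h6 : 1 * (1 / M) ≤ 2 * (nr (fv f (cos t) (sin t)) * M) := by
    calc 1 * (1 / M) ≤ (|cos t| + |sin t|) * |fdet f| := mul_le_mul h1 hf2 (by positivity) (by positivity)
      _ ≤ _ := h5
      _ ≤ _ := mul_le_mul_of_nonneg_left (mul_le_mul_of_nonneg_left hf1 (norm_nonneg _)) (by norm_num)
  have h7 : 1 / (2 * M ^ 2) = (1 * (1 / M)) / (2 * M) := by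
    field_simp
  rw [h7, div_le_iff₀ (by positivity)]
  linarith

/-- the integral of the radius of curvature is the length -/
private lemma u_rho_int {G : ℝ → ℝ} (hG : IsSupp G) {B : ℝ} (hB : ∀ t, G t ≤ B) :
    ∫ t in (0 : ℝ)..(2 * π), rho G t ≤ 2 * π * B := by
  have hpi := Real.pi_pos
  have h1 : ContDiff ℝ 1 (deriv G) := by
    have h := (contDiff_succ_iff_deriv (n := 1) (f := G)).1 (by
      rw [one_add_one_eq_two]; exact hG.smooth)
    exact h.2.2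
  have h2 : Continuous (deriv (deriv G)) := h1.continuous_deriv (le_refl _)
  have hp : deriv G (2 * π) = deriv G 0 := by
    have h3 : (fun y => G (y + 2 * π)) = G := funext hG.per
    have h4 : deriv G (0 + 2 * π) = deriv G 0 := by
      rw [← deriv_comp_add_const, h3]
    rwa [zero_add] at h4
  have h3 : ∫ t in (0 : ℝ)..(2 * π), deriv (deriv G) t = 0 := by
    rw [intervalIntegral.integral_eq_sub_of_hasDerivAt (f := deriv G)
      (fun t _ => ((h1.differentiable one_ne_zero).differentiableAt).hasDerivAt)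
      (h2.intervalIntegrable _ _), hp, sub_self]
  have h4 : ∫ t in (0 : ℝ)..(2 * π), rho G t = ∫ t in (0 : ℝ)..(2 * π), G t := by
    unfold rho
    rw [intervalIntegral.integral_add (hG.smooth.continuous.intervalIntegrable _ _) (h2.intervalIntegrable _ _), h3, add_zero]
  rw [h4]
  have h5 : ∫ t in (0 : ℝ)..(2 * π), G t ≤ ∫ _t in (0 : ℝ)..(2 * π), B :=
    intervalIntegral.integral_mono_on (by positivity) (hG.smooth.continuous.intervalIntegrable _ _)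
      (continuous_const.intervalIntegrable _ _) (fun t _ => hB t)
  refine h5.trans (le_of_eq ?_)
  rw [intervalIntegral.integral_const, smul_eq_mul, sub_zero]

private lemma mul_supp {G : ℝ → ℝ} (hG : IsSupp G) {r : ℝ} (hr : 0 < r) : IsSupp (fun θ => r * G θ) := by
  have := rot_isSupp hG hr 0
  simpa using this

private lemma mul_dd (G : ℝ → ℝ) (r θ : ℝ) : deriv (fun θ => r * G θ) θ = r * deriv G θ := by
  rw [deriv_const_mul_field]

private lemma mul_ddd (G : ℝ → ℝ) (r θ : ℝ) : deriv (deriv (fun θ => r * G θ)) θ = r * deriv (deriv G) θ := by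
  have : deriv (fun θ => r * G θ) = fun θ => r * deriv G θ := funext (mul_dd G r)
  rw [this, deriv_const_mul_field]

private lemma mul_rho (G : ℝ → ℝ) (r θ : ℝ) : rho (fun θ => r * G θ) θ = r * rho G θ := by
  unfold rho
  rw [mul_ddd]
  ring

private lemma mul_ga (G : ℝ → ℝ) (r α t : ℝ) : ga (fun θ => r * G θ) α t = r * ga G α t := by
  unfold ga
  rw [mul_dd]
  ring

/-- a block -/
private lemma blk {H : ℝ → ℝ} (hH : IsSupp H) {f : Fr} (hf : fdet f ≠ 0) {α₀ : ℝ} (ha0 : 0 < α₀) (ha1 : α₀ < π / 2)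
    {m M : ℝ} (hm : 0 < m) (hmk : ∀ N : ℕ, ∀ k ∈ sqa N, m * N ≤ nr (fk f k)) (hM1 : 1 ≤ M) (hM : ∀ t, |rho H t| ≤ M)
    {N : ℕ} (hN : 1 ≤ N) {R₀ r : ℝ} (hR : 1 ≤ R₀) (hr : r ∈ Icc (R₀ / 2) (4 * R₀)) {g : ℝ → ℝ} (hg : IntegrableOn g (Icc (-α₀) α₀))
    (hF : ∀ α ∈ Icc (-α₀) α₀, ∀ c : ℝ × ℝ,
        ‖LS f (hom (ga H α)) (wr H α) 1 N r c‖ ≤ g α ∧ ‖LS f (hom (ga H α)) (fun _ => 1) 2 N r c‖ ≤ g α) (c : ℝ × ℝ) :
    ‖∑ k ∈ sqa N, ftr (fun θ => r * H θ) (fk f k) * ee (dt k c)‖ ≤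
      (15 + 128 * π * (M * (1 / m)) / sin α₀ ^ 2 + 32 * π * (1 / m) ^ 2 / sin α₀ ^ 2) *
        (R₀ ^ (1 / 2 : ℝ) * (N : ℝ) ^ (-(3 / 2) : ℝ) * (∫ α in Icc (-α₀) α₀, k0 (1 / sqrt (R₀ * N)) α * g α) + 1) := by
  have hpi := Real.pi_pos
  have hR0 : 0 < R₀ := by linarith
  have hr0 : 0 < r := by linarith [hr.1]
  have hN0 : (0 : ℝ) < N := by exact_mod_cast hN
  have hsin : 0 < sin α₀ := sin_pos_of_pos_of_lt_pi ha0 (by linarith)
  set β : ℝ := 1 / sqrt (R₀ * N) with hβd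
  have hsq : 0 < sqrt (R₀ * N) := sqrt_pos.2 (by positivity)
  have hβ : 0 < β := by positivity
  have hrp : ∀ t, rho H (t + 2 * π) = rho H t := by
    intro t
    have := Pool.Agent.Helper22.OV.rho_per_o3 hH.per 0 0 t
    simpa using this
  have h1 := vkr_bound (mul_supp hH hr0) (fun k => fk f k) (fun k => ee (dt k c)) (sqa N)
    (fun k hk => fk_ne hf (sqa_ne hN hk)) hβ
  have e1 : ∀ α, ∑ k ∈ sqa N, ee (dt k c) / (nr (fk f k) : ℂ) * ((rho (fun θ => r * H θ) (tr (fk f k) + α) : ℝ) : ℂ) *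
      ee (-(nr (fk f k) * ga (fun θ => r * H θ) α (tr (fk f k)))) =
      ((r / N : ℝ) : ℂ) * TR f 1 N (fun t => rho H (t + α)) (ga H α) r c := by
    intro α
    unfold TR
    rw [Finset.mul_sum]
    refine Finset.sum_congr rfl fun k hk => ?_
    have h2 : (nr (fk f k) : ℂ) ≠ 0 := by exact_mod_cast (nr_pos (fk_ne hf (sqa_ne hN hk))).ne'
    have h3 : (N : ℂ) ≠ 0 := by exact_mod_cast hN0.ne'
    rw [mul_rho, mul_ga]
    push_cast
    field_simp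
  have e2 : ∀ α, ∑ k ∈ sqa N, ee (dt k c) / (nr (fk f k) : ℂ) ^ 2 *
      ee (-(nr (fk f k) * ga (fun θ => r * H θ) α (tr (fk f k)))) =
      ((1 / (N : ℝ) ^ 2 : ℝ) : ℂ) * TR f 2 N (fun _ => 1) (ga H α) r c := by
    intro α
    unfold TR
    rw [Finset.mul_sum]
    refine Finset.sum_congr rfl fun k hk => ?_
    have h2 : (nr (fk f k) : ℂ) ≠ 0 := by exact_mod_cast (nr_pos (fk_ne hf (sqa_ne hN hk))).ne'
    have h3 : (N : ℂ) ≠ 0 := by exact_mod_cast hN0.ne'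
    rw [mul_ga]
    push_cast
    field_simp
  simp only [e1, e2, norm_mul, Complex.norm_real] at h1
  have n1 : ‖r / (N : ℝ)‖ = r / N := by rw [Real.norm_eq_abs, abs_of_pos (by positivity)]
  have n2 : ‖1 / (N : ℝ) ^ 2‖ = 1 / (N : ℝ) ^ 2 := by rw [Real.norm_eq_abs, abs_of_pos (by positivity)]
  rw [n1, n2] at h1
  set I : ℝ := ∫ α in Icc (-α₀) α₀, k0 β α * g α with hI
  have hg0 : ∀ α ∈ Icc (-α₀) α₀, 0 ≤ g α := fun α hα => (norm_nonneg _).trans (hF α hα 0).1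
  have hI0 : 0 ≤ I := by
    rw [hI]
    exact setIntegral_nonneg measurableSet_Icc fun α hα => mul_nonneg (o3_k0_nonneg hβ α) (hg0 α hα)
  have hrc := o3_rho_cont hH.smooth
  have t1 := TR_int hH hf ha0 ha1 1 hN (w := fun α t => rho H (t + α)) (fun t => hrc.comp (by fun_prop))
    (fun α t => by
      show rho H (t + 2 * π + α) = rho H (t + α)
      rw [show t + 2 * π + α = t + α + 2 * π by ring, hrp])
    (fun α t => by
      show rho H (t + (α + π)) = rho H (t + π + α)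
      congr 1
      ring)
    (fun α t => by
      show rho H (t + (α - π)) = rho H (t + π + α)
      rw [← hrp (t + (α - π))]
      congr 1
      ring) (E := 16 * (N : ℝ) ^ 2 * (M * (1 / m) ^ 1)) (r := r) c
    (fun α => TR_triv hm hmk 1 hN (fun t => hM _) _ r c) hβ hg (fun α hα => (hF α hα (-c)).1)
  have t2 := TR_int hH hf ha0 ha1 2 hN (w := fun _ _ => 1) (fun t => continuous_const)
    (fun α t => rfl) (fun α t => rfl) (fun α t => rfl) (E := 16 * (N : ℝ) ^ 2 * (1 * (1 / m) ^ 2)) (r := r) c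
    (fun α => TR_triv hm hmk 2 hN (fun t => by simp) _ r c) hβ hg (fun α hα => by
      have := (hF α hα (-c)).2
      simpa using this)
  rw [← hI] at t1 t2
  rw [pow_one] at t1
  have i1 : ∀ T : ℝ → ℝ, (∫ α in (-π)..π, k0 β α * (r / N * T α)) = r / N * ∫ α in (-π)..π, k0 β α * T α := by
    intro T
    rw [← intervalIntegral.integral_const_mul]
    congr 1
    funext α
    ring
  have i2 : ∀ T : ℝ → ℝ, (∫ α in (-π)..π, k0 β α * (1 / (N : ℝ) ^ 2 * T α)) = 1 / (N : ℝ) ^ 2 * ∫ α in (-π)..π, k0 β α * T α := by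
    intro T
    rw [← intervalIntegral.integral_const_mul]
    congr 1
    funext α
    ring
  rw [i1, i2] at h1
  -- the powers
  set P : ℝ := R₀ ^ (1 / 2 : ℝ) * (N : ℝ) ^ (-(3 / 2) : ℝ) with hP
  have hP0 : 0 ≤ P := by positivity
  have hsq2 : sqrt (R₀ * N) = R₀ ^ (1 / 2 : ℝ) * (N : ℝ) ^ (1 / 2 : ℝ) := by
    rw [sqrt_eq_rpow, mul_rpow hR0.le hN0.le]
  have hq1 : β * (r / N) ≤ 4 * P := by
    have h2 : β * (r / N) ≤ β * (4 * R₀ / N) := by gcongr; exact hr.2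
    refine h2.trans (le_of_eq ?_)
    have h3 : R₀ = R₀ ^ (1 / 2 : ℝ) * R₀ ^ (1 / 2 : ℝ) := by
      rw [← rpow_add hR0]
      norm_num
    have h4 : (N : ℝ) ^ (-(3 / 2) : ℝ) = 1 / ((N : ℝ) ^ (1 / 2 : ℝ) * N) := by
      rw [rpow_neg hN0.le, one_div]
      congr 1
      rw [← rpow_add_one hN0.ne']
      norm_num
    rw [hβd, hP, hsq2, h4]
    have h5 : 0 < R₀ ^ (1 / 2 : ℝ) := by positivity
    have h6 : 0 < (N : ℝ) ^ (1 / 2 : ℝ) := by positivity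
    field_simp
    nlinarith [h3]
  have hq2 : 1 / β * (1 / (N : ℝ) ^ 2) = P := by
    rw [hβd, one_div_one_div, hsq2, hP, mul_assoc]
    congr 1
    rw [show (-(3 / 2) : ℝ) = 1 / 2 - 2 by norm_num, rpow_sub hN0]
    rw [show ((N : ℝ) ^ (2 : ℝ)) = (N : ℝ) ^ (2 : ℕ) by rw [← rpow_natCast]; norm_num]
    ring
  have hq3 : β * (r / N) * (β * (N : ℝ) ^ 2) ≤ 4 := by
    have h2 : β * β = 1 / (R₀ * N) := by
      rw [hβd, div_mul_div_comm, mul_self_sqrt (by positivity), one_mul]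
    have h3 : β * (r / N) * (β * (N : ℝ) ^ 2) = (β * β) * (r / N * (N : ℝ) ^ 2) := by ring
    rw [h3, h2]
    have h4 : r / N * (N : ℝ) ^ 2 = r * N := by field_simp
    rw [h4, one_div, inv_mul_le_iff₀ (by positivity)]
    nlinarith [hr.2]
  have hq4 : 1 / β * (1 / (N : ℝ) ^ 2) * (β * (N : ℝ) ^ 2) = 1 := by
    field_simp
  have hs2 : 0 < sin α₀ ^ 2 := by positivity
  have u1 : β * (r / N * ∫ α in (-π)..π, k0 β α * ‖TR f 1 N (fun t => rho H (t + α)) (ga H α) r c‖) ≤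
      12 * (P * I) + 128 * π * (M * (1 / m)) / sin α₀ ^ 2 := by
    have h2 := mul_le_mul_of_nonneg_left t1 (show 0 ≤ β * (r / N) by positivity)
    have h3 : β * (r / N) * (3 * I + 2 * π * (β / sin α₀ ^ 2 * (16 * (N : ℝ) ^ 2 * (M * (1 / m))))) =
        3 * ((β * (r / N)) * I) + 32 * π * (M * (1 / m)) / sin α₀ ^ 2 * (β * (r / N) * (β * (N : ℝ) ^ 2)) := by ring
    have h4 : (β * (r / N)) * I ≤ 4 * P * I := mul_le_mul_of_nonneg_right hq1 hI0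
    have h5 := mul_le_mul_of_nonneg_left hq3 (show 0 ≤ 32 * π * (M * (1 / m)) / sin α₀ ^ 2 by positivity)
    rw [h3] at h2
    rw [← mul_assoc]
    have h6 : 32 * π * (M * (1 / m)) / sin α₀ ^ 2 * 4 = 128 * π * (M * (1 / m)) / sin α₀ ^ 2 := by ring
    linarith
  have u2 : 1 / β * (1 / (N : ℝ) ^ 2 * ∫ α in (-π)..π, k0 β α * ‖TR f 2 N (fun _ => 1) (ga H α) r c‖) ≤
      3 * (P * I) + 32 * π * (1 / m) ^ 2 / sin α₀ ^ 2 := by
    have h2 := mul_le_mul_of_nonneg_left t2 (show 0 ≤ 1 / β * (1 / (N : ℝ) ^ 2) by positivity)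
    have h3 : 1 / β * (1 / (N : ℝ) ^ 2) * (3 * I + 2 * π * (β / sin α₀ ^ 2 * (16 * (N : ℝ) ^ 2 * (1 * (1 / m) ^ 2)))) =
        3 * ((1 / β * (1 / (N : ℝ) ^ 2)) * I) + 32 * π * (1 / m) ^ 2 / sin α₀ ^ 2 * (1 / β * (1 / (N : ℝ) ^ 2) * (β * (N : ℝ) ^ 2)) := by ring
    rw [h3, hq4, hq2] at h2
    rw [← mul_assoc, hq2]
    linarith
  have hA : 0 ≤ 128 * π * (M * (1 / m)) / sin α₀ ^ 2 := by positivity
  have hB : 0 ≤ 32 * π * (1 / m) ^ 2 / sin α₀ ^ 2 := by positivity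
  have hPI : 0 ≤ P * I := mul_nonneg hP0 hI0
  have h5 := mul_nonneg hA hPI
  have h6 := mul_nonneg hB hPI
  calc _ ≤ _ := h1
    _ ≤ (12 * (P * I) + 128 * π * (M * (1 / m)) / sin α₀ ^ 2) + (3 * (P * I) + 32 * π * (1 / m) ^ 2 / sin α₀ ^ 2) := add_le_add u1 u2
    _ ≤ (15 + 128 * π * (M * (1 / m)) / sin α₀ ^ 2 + 32 * π * (1 / m) ^ 2 / sin α₀ ^ 2) * (P * I + 1) := by nlinarith

/-- `lp_main` with constants depending on the bounds `M` of `H` and of the frame only -/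
theorem lp_main_unif {τ e2 α₀ M : ℝ} (h0 : 0 < τ) (h1 : τ < 1) (he2 : 0 < e2)
    (ha0 : 0 < α₀) (ha1 : α₀ < π / 2) (hM1 : 1 ≤ M) : ∃ C R₁ : ℝ, 0 < C ∧ 1 ≤ R₁ ∧
      ∀ H : ℝ → ℝ, IsSupp H → (∀ t, 1 / M ≤ H t) → (∀ t, H t ≤ M) → (∀ t, rho H t ≤ M) →
      ∀ f : Fr, nr f.1 + nr f.2 ≤ M → 1 / M ≤ |fdet f| → ∀ R₀ : ℝ, R₁ ≤ R₀ → ∀ n1 : ℕ, R₀ ^ (τ + e2) ≤ 2 ^ n1 →
      ∀ g : ℕ → ℝ → ℝ, (∀ n < n1, IntegrableOn (g n) (Icc (-α₀) α₀)) →
      (∀ n < n1, ∀ α ∈ Icc (-α₀) α₀, ∀ r ∈ Icc (R₀ / 2) (4 * R₀), ∀ c : ℝ × ℝ,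
        ‖LS f (hom (ga H α)) (wr H α) 1 (2 ^ n) r c‖ ≤ g n α ∧ ‖LS f (hom (ga H α)) (fun _ => 1) 2 (2 ^ n) r c‖ ≤ g n α) →
      ∀ R ∈ Icc R₀ (2 * R₀), ∀ c : ℝ × ℝ, |cntc (Hf H f) c R - area (Hf H f) * R ^ 2| ≤
        C * (R₀ ^ (1 - τ) + ∑ n ∈ Finset.range n1, (R₀ ^ (1 / 2 : ℝ) * ((2 ^ n : ℕ) : ℝ) ^ (-(3 / 2) : ℝ) *
          (∫ α in Icc (-α₀) α₀, k0 (1 / sqrt (R₀ * (2 ^ n : ℕ))) α * g n α) + 1)) := by
  have hpi := Real.pi_pos
  have hM0' : 0 < M := by linarith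
  set m : ℝ := 1 / (2 * M ^ 2) with hmd
  have hm : 0 < m := by positivity
  obtain ⟨C0, R1, hR1, hd'⟩ := dil_blocks_u (τ := τ) (e2 := e2) (m := m * (1 / M)) (I := 2 * π * (M * M))
    (A0 := 4 * (M * M) ^ 2) h0 h1 he2 (by positivity)
  set C1 : ℝ := M ^ 2 * (15 + 128 * π * (M * (1 / m)) / sin α₀ ^ 2 + 32 * π * (1 / m) ^ 2 / sin α₀ ^ 2) with hC1
  have hsin : 0 < sin α₀ := sin_pos_of_pos_of_lt_pi ha0 (by linarith)
  have hM0 : 0 ≤ M := by linarith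
  have hC10 : 0 ≤ C1 := by positivity
  refine ⟨|C0| + C1 + 1, max R1 1, by positivity, le_max_right _ _, ?_⟩
  intro H hH hH1 hH2 hH3 f hf1 hf2 R₀ hR₀ n1 hn1 g hg hF R hR c
  have hfp : 0 < |fdet f| := lt_of_lt_of_le (by positivity) hf2
  have hf : fdet f ≠ 0 := abs_pos.1 hfp
  have hmk : ∀ N : ℕ, ∀ k ∈ sqa N, m * N ≤ nr (fk f k) := fk_low_u hM1 hf1 hf2
  have hM' : ∀ t, |rho H t| ≤ M := by
    intro t
    rw [abs_of_pos (show 0 < rho H t from hH.rho_pos t)]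
    exact hH3 t
  have hup : ∀ t, Hf H f t ≤ M * M := by
    intro t
    unfold Hf hom
    exact mul_le_mul ((u_nr_le f t).trans hf1) (hH2 _) (hH.pos _).le hM0'.le
  have hlow : ∀ t, m * (1 / M) ≤ Hf H f t := by
    intro t
    unfold Hf hom
    exact mul_le_mul (u_nr_ge hM1 hf1 hf2 t) (hH1 _) (by positivity) (norm_nonneg _)
  have hfd : |fdet f| ≤ M ^ 2 := by
    have h5 := u_cs f.1 f.2
    have h6 : 0 ≤ nr f.1 := norm_nonneg _
    have h7 : 0 ≤ nr f.2 := norm_nonneg _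
    have h8 : |fdet f| ≤ nr f.1 * nr f.2 := h5
    have h9 : nr f.1 ≤ M := by linarith
    have h10 : nr f.2 ≤ M := by linarith
    calc |fdet f| ≤ nr f.1 * nr f.2 := h8
      _ ≤ M * M := mul_le_mul h9 h10 h7 hM0'.le
      _ = M ^ 2 := by ring
  have hd := hd' (Hf H f) (Hf_isSupp hH hf) hlow (u_rho_int (Hf_isSupp hH hf) hup) (area_le_u (by positivity) hup)
  have hR1' : R1 ≤ R₀ := (le_max_left _ _).trans hR₀
  have hRo : 1 ≤ R₀ := (le_max_right _ _).trans hR₀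
  have hR0 : 0 < R₀ := by linarith
  set T : ℕ → ℝ := fun n => R₀ ^ (1 / 2 : ℝ) * ((2 ^ n : ℕ) : ℝ) ^ (-(3 / 2) : ℝ) *
          (∫ α in Icc (-α₀) α₀, k0 (1 / sqrt (R₀ * (2 ^ n : ℕ))) α * g n α) + 1 with hT
  have hT0 : ∀ n ∈ Finset.range n1, 0 ≤ T n := by
    intro n hn
    have h3 : 0 ≤ ∫ α in Icc (-α₀) α₀, k0 (1 / sqrt (R₀ * (2 ^ n : ℕ))) α * g n α := by
      refine setIntegral_nonneg measurableSet_Icc fun α hα => mul_nonneg (o3_k0_nonneg (by positivity) α) ?_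
      exact (norm_nonneg _).trans (hF n (Finset.mem_range.1 hn) α hα R₀ ⟨by linarith, by linarith⟩ 0).1
    have h4 : 0 ≤ R₀ ^ (1 / 2 : ℝ) * ((2 ^ n : ℕ) : ℝ) ^ (-(3 / 2) : ℝ) := by positivity
    have := mul_nonneg h4 h3
    simp only [hT]
    linarith
  have hmain := hd R₀ hR1' n1 hn1 (fun n => C1 * T n) (by
    intro n hn r hr c'
    have e : ∑ k ∈ sqa (2 ^ n), ft (fun θ => r * Hf H f θ) k * ee (dt k c') =
        ((|fdet f| : ℝ) : ℂ) * ∑ k ∈ sqa (2 ^ n), ftr (fun θ => r * H θ) (fk f k) * ee (dt k c') := by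
      rw [Finset.mul_sum]
      refine Finset.sum_congr rfl fun k _ => ?_
      rw [ft_lin hH.per hf]
      ring
    rw [e, norm_mul, Complex.norm_real, Real.norm_eq_abs, abs_abs]
    have hb := blk hH hf ha0 ha1 hm hmk hM1 hM' (N := 2 ^ n) Nat.one_le_two_pow hRo hr (hg n hn)
      (fun α hα c => hF n hn α hα r hr c) c'
    have h2 := mul_le_mul hfd hb (norm_nonneg _) (by positivity)
    refine h2.trans (le_of_eq ?_)
    simp only [hC1, hT]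
    ring) R hR c
  refine hmain.trans ?_
  rw [← Finset.mul_sum]
  have h3 : 0 ≤ ∑ n ∈ Finset.range n1, T n := Finset.sum_nonneg hT0
  have h4 : 0 ≤ R₀ ^ (1 - τ) := by positivity
  have h5 := mul_le_mul_of_nonneg_right (le_abs_self C0) h4
  have h6 : 0 ≤ |C0| := abs_nonneg _
  have h7 := mul_nonneg h6 h3
  have h8 := mul_nonneg hC10 h4
  nlinarith

end Pool.Agent.Helper22.LP
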